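import Mathlib

set_option autoImplicit false

/-!
# Homogeneous components of products
-/

namespace Pool.Agent.Q39.POG

open MvPolynomial

variable {K : Type} [Field K] {σ : Type}

lemma comp_mul_homog (F H : MvPolynomial σ K) {n : ℕ} (hH : H.IsHomogeneous n) (k : ℕ) :
    homogeneousComponent (k + n) (F * H) = homogeneousComponent k F * H := by
  conv_lhs => rw [← sum_homogeneousComponent F]
  rw [Finset.sum_mul, map_sum]
  rw [Finset.sum_congr rfl (fun i _ => homogeneousComponent_of_mem
    ((homogeneousComponent_isHomogeneous i F).mul hH))]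
  have : ∀ i, (if k + n = i + n then homogeneousComponent i F * H else 0) =
      (if k = i then homogeneousComponent i F * H else 0) := by
    intro i
    by_cases h : k = i
    · simp [h]
    · rw [if_neg h, if_neg (by omega)]
  simp only [this]
  by_cases hn : k ∈ Finset.range (F.totalDegree + 1)
  · rw [Finset.sum_ite_eq, if_pos hn]
  · rw [Finset.sum_ite_eq, if_neg hn]
    rw [homogeneousComponent_eq_zero, zero_mul]
    rw [Finset.mem_range] at hn
    omega

lemma comp_mul_homog_low (F H : MvPolynomial σ K) {n : ℕ} (hH : H.IsHomogeneous n) {k : ℕ}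
    (hk : k < n) : homogeneousComponent k (F * H) = 0 := by
  conv_lhs => rw [← sum_homogeneousComponent F]
  rw [Finset.sum_mul, map_sum]
  apply Finset.sum_eq_zero
  intro i _
  rw [homogeneousComponent_of_mem ((homogeneousComponent_isHomogeneous i F).mul hH),
    if_neg (by omega)]

lemma dvd_component {F H : MvPolynomial σ K} {n : ℕ} (hH : H.IsHomogeneous n) (h : H ∣ F)
    (k : ℕ) : H ∣ homogeneousComponent k F := by
  obtain ⟨G, rfl⟩ := h
  rw [mul_comm H G]
  by_cases hk : k < n
  · rw [comp_mul_homog_low G H hH hk]
    exact dvd_zero _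
  · obtain ⟨j, rfl⟩ : ∃ j, k = j + n := ⟨k - n, by omega⟩
    rw [comp_mul_homog G H hH]
    exact dvd_mul_left _ _

/-- the cofactor of a homogeneous polynomial in a homogeneous polynomial is homogeneous -/
lemma homog_cofactor {F e H : MvPolynomial σ K} {n k : ℕ} (hH : H.IsHomogeneous n) (h0 : H ≠ 0)
    (hF : F.IsHomogeneous (k + n)) (h : F = e * H) : e.IsHomogeneous k := by
  have h1 := comp_mul_homog e H hH k
  rw [← h, homogeneousComponent_of_mem hF, if_pos rfl, h] at h1
  have h2 := mul_right_cancel₀ h0 h1
  rw [h2]
  exact homogeneousComponent_isHomogeneous _ _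

lemma component_eq_zero_of_dvd {F H : MvPolynomial σ K} {n k : ℕ} (hH : H.IsHomogeneous n)
    (h : H ∣ F) (hk : k < n) : homogeneousComponent k F = 0 := by
  obtain ⟨G, rfl⟩ := h
  rw [mul_comm]
  exact comp_mul_homog_low G H hH hk

/-- the component of degree `k` of a product whose first factor has no components of degree less
than `d` and whose second factor is homogeneous of degree `n` vanishes if `k < d + n` -/
lemma comp_mul_eq_zero {F H : MvPolynomial σ K} {n d k : ℕ} (hH : H.IsHomogeneous n)
    (hF : ∀ j < d, homogeneousComponent j F = 0) (hk : k < d + n) :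
    homogeneousComponent k (F * H) = 0 := by
  by_cases h : k < n
  · exact comp_mul_homog_low F H hH h
  · obtain ⟨j, rfl⟩ : ∃ j, k = j + n := ⟨k - n, by omega⟩
    rw [comp_mul_homog F H hH, hF j (by omega), zero_mul]

/-- lowest-degree coefficients of a product -/
lemma coeff_mul_low (F G : MvPolynomial σ K) (m : σ →₀ ℕ)
    (hG : ∀ j < m.degree, homogeneousComponent j G = 0) :
    coeff m (F * G) = coeff 0 F * coeff m G := by
  classical
  rw [coeff_mul]
  rw [Finset.sum_eq_single (0, m)]
  · rintro ⟨a, b⟩ hab hne
    rw [Finset.HasAntidiagonal.mem_antidiagonal] at hab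
    simp only at hab ⊢
    have ha : a ≠ 0 := by
      rintro rfl
      rw [zero_add] at hab
      exact hne (by rw [hab])
    have hd : b.degree < m.degree := by
      rw [← hab, map_add]
      have : a.degree ≠ 0 := by
        intro h
        exact ha ((Finsupp.degree_eq_zero_iff a).1 h)
      omega
    have h1 := congrArg (coeff b) (hG b.degree hd)
    rw [coeff_homogeneousComponent, if_pos rfl, coeff_zero] at h1
    rw [h1, mul_zero]
  · intro h
    exact absurd (by simp) h

end Pool.Agent.Q39.POG
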