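import Pool.Agent.Q39.POG.Pencil
import Pool.Agent.Q39.POG.Grade

set_option autoImplicit false

/-!
# The case in which the residual points form a complete intersection
-/

namespace Pool.Agent.Q39.POG

open MvPolynomial

variable {K : Type} [Field K] {n m : ℕ}

/-- the admissible polynomials are the ideal generated by the coprime polynomials `q1, q2` -/
structure IsCI (c : Fin n → K × K) (v : Fin m → K × K) (q1 q2 : MvPolynomial (Fin 3) K)
    (s1 s2 : ℕ) : Prop where
  adm : ∀ q, Adm c v q ↔ ∃ a b, q = a * q1 + b * q2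
  h1 : q1.IsHomogeneous s1
  h2 : q2.IsHomogeneous s2
  rel : ∀ a b : MvPolynomial (Fin 3) K, a * q1 + b * q2 = 0 → ∃ k, a = k * q2 ∧ b = -(k * q1)

/-- Euler -/
noncomputable def vE : Fin 3 → MvPolynomial (Fin 3) K := ![X 0, X 1, X 2]

/-- the vertical vector field -/
noncomputable def vT (c : Fin n → K × K) : Fin 3 → MvPolynomial (Fin 3) K := ![0, 0, hh c]

/-- the vector field with parameters `q`, `w` -/
noncomputable def vD (p0 p1 q w : MvPolynomial (Fin 3) K) : Fin 3 → MvPolynomial (Fin 3) K :=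
  ![q * p0, q * p1, w]

theorem ci_structure (c : Fin n → K × K) (v : Fin m → K × K) (hc : Function.Injective c)
    (hg : GenPos c) (hv : ∀ k, v k ≠ 0) (hv2 : ∀ k l, k ≠ l → det2 (v k) (v l) ≠ 0)
    {p0 p1 : MvPolynomial (Fin 3) K} (h : Sys v p0 p1) {q1 q2 : MvPolynomial (Fin 3) K}
    {s1 s2 N : ℕ} (hq : IsCI c v q1 q2 s1 s2) (hN : N + n = s1 + s2 + (m - 1)) :
    ∃ w1 w2 e' : MvPolynomial (Fin 3) K, w1.IsHomogeneous (s1 + (m - 1)) ∧
      w2.IsHomogeneous (s2 + (m - 1)) ∧ e'.IsHomogeneous N ∧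
      q2 * w1 - q1 * w2 = e' * hh c ∧
      IsLog c v vE ∧ IsLog c v (vT c) ∧ IsLog c v (vD p0 p1 q1 w1) ∧
      IsLog c v (vD p0 p1 q2 w2) ∧
      (∀ θ, IsLog c v θ → ∃ g0 g1 g2 g3 : MvPolynomial (Fin 3) K,
        θ = g0 • vE + g1 • vT c + g2 • vD p0 p1 q1 w1 + g3 • vD p0 p1 q2 w2) ∧
      (∀ g0 g1 g2 g3 : MvPolynomial (Fin 3) K,
        g0 • vE + g1 • vT c + g2 • vD p0 p1 q1 w1 + g3 • vD p0 p1 q2 w2 = 0 ↔
        ∃ k, g0 = 0 ∧ g1 = k * (-e') ∧ g2 = k * q2 ∧ g3 = k * (-q1)) := by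
  obtain ⟨w1, hw1, hs1⟩ := exists_homog_solution c hc hg h
    ((hq.adm q1).2 ⟨1, 0, by ring⟩) hq.h1
  obtain ⟨w2, hw2, hs2⟩ := exists_homog_solution c hc hg h
    ((hq.adm q2).2 ⟨0, 1, by ring⟩) hq.h2
  have hd : hh c ∣ q2 * w1 - q1 * w2 := by
    apply prod_ell_dvd Finset.univ c hc.injOn
    intro i _
    rw [map_sub, map_mul, map_mul, hs1 i, hs2 i, map_mul, map_mul]
    ring
  obtain ⟨e', he'⟩ := hd
  rw [mul_comm (hh c) e'] at he'
  have hhom : (q2 * w1 - q1 * w2).IsHomogeneous (N + n) := by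
    have a1 := hq.h2.mul hw1
    have a2 := hq.h1.mul hw2
    rw [hN]
    refine IsHomogeneous.sub ?_ ?_
    · have : s1 + s2 + (m - 1) = s2 + (s1 + (m - 1)) := by omega
      rw [this]; exact a1
    · have : s1 + s2 + (m - 1) = s1 + (s2 + (m - 1)) := by omega
      rw [this]; exact a2
  refine ⟨w1, w2, e', hw1, hw2, homog_cofactor (hh_homog c) (hh_ne_zero c) hhom he', he',
    ?_, ?_, ?_, ?_, ?_, ?_⟩
  · rw [isLog_iff c hv hv2 h]
    exact ⟨1, 0, 0, by simp [vE], by simp [vE], by simp [vE], by simp⟩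
  · rw [isLog_iff c hv hv2 h]
    refine ⟨0, 0, hh c, by simp [vT], by simp [vT], by simp [vT], fun i => ?_⟩
    rw [zero_mul, map_zero, ← ell_dvd_iff]
    exact Finset.dvd_prod_of_mem _ (Finset.mem_univ i)
  · rw [isLog_iff c hv hv2 h]
    exact ⟨0, q1, w1, by simp [vD], by simp [vD], by simp [vD], hs1⟩
  · rw [isLog_iff c hv hv2 h]
    exact ⟨0, q2, w2, by simp [vD], by simp [vD], by simp [vD], hs2⟩
  · intro θ hθ
    rw [isLog_iff c hv hv2 h] at hθ
    obtain ⟨e, q, w, e0, e1, e2, hw⟩ := hθ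
    obtain ⟨a, b, hab⟩ := (hq.adm q).1 (adm_of_solution c hc h hw)
    have hd2 : hh c ∣ w - a * w1 - b * w2 := by
      apply prod_ell_dvd Finset.univ c hc.injOn
      intro i _
      rw [map_sub, map_sub, map_mul, map_mul, hs1 i, hs2 i, hw i, hab]
      simp only [map_mul, map_add]
      ring
    obtain ⟨k, hk⟩ := hd2
    refine ⟨e, k, a, b, ?_⟩
    funext j
    fin_cases j
    · simp only [Fin.zero_eta, e0, hab, Pi.add_apply, Pi.smul_apply, smul_eq_mul, vE, vT, vD]
      simp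
      ring
    · simp only [Fin.mk_one, e1, hab, Pi.add_apply, Pi.smul_apply, smul_eq_mul, vE, vT, vD]
      simp
      ring
    · simp only [Fin.reduceFinMk, e2, Pi.add_apply, Pi.smul_apply, smul_eq_mul, vE, vT, vD]
      simp
      linear_combination hk
  · intro g0 g1 g2 g3
    constructor
    · intro h0
      have f0 := congrFun h0 0
      have f1 := congrFun h0 1
      have f2 := congrFun h0 2
      simp [vE, vT, vD] at f0 f1 f2
      obtain ⟨r0, r1⟩ := rep_unique hv h (e := g0) (q := g2 * q1 + g3 * q2)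
        (by linear_combination f0) (by linear_combination f1)
      obtain ⟨k, k1, k2⟩ := hq.rel _ _ r1
      refine ⟨k, r0, ?_, k1, by rw [k2]; ring⟩
      have : g1 * hh c = (k * (-e')) * hh c := by
        rw [r0, k1, k2] at f2
        linear_combination f2 - k * he'
      exact mul_right_cancel₀ (hh_ne_zero c) this
    · rintro ⟨k, rfl, rfl, rfl, rfl⟩
      funext j
      fin_cases j
      · simp [vE, vT, vD]
        ring
      · simp [vE, vT, vD]
        ring
      · simp [vE, vT, vD]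
        linear_combination k * he'

end Pool.Agent.Q39.POG
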