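import Mathlib

set_option autoImplicit false

/-!
# Lines in the projective plane in pencil position: substitutions and interpolation

Notation used in this folder: `S = K[x, y, z]`; `lin p = a x + b y` and `ell p = z - a x - b y`
for `p = (a, b)`; `rho p` is the substitution `z ↦ a x + b y`, that is, the restriction to the line
`ell p = 0`.
-/

namespace Pool.Agent.Q39.POG

open MvPolynomial

variable {K : Type} [Field K]

/-- `a x + b y` -/
noncomputable def lin (p : K × K) : MvPolynomial (Fin 3) K := C p.1 * X 0 + C p.2 * X 1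

/-- `z - a x - b y` -/
noncomputable def ell (p : K × K) : MvPolynomial (Fin 3) K := X 2 - lin p

/-- the substitution `z ↦ a x + b y` -/
noncomputable def rho (p : K × K) : MvPolynomial (Fin 3) K →ₐ[K] MvPolynomial (Fin 3) K :=
  aeval ![X 0, X 1, lin p]

@[simp] lemma rho_X0 (p : K × K) : rho p (X 0) = X 0 := by simp [rho]
@[simp] lemma rho_X1 (p : K × K) : rho p (X 1) = X 1 := by simp [rho]
@[simp] lemma rho_X2 (p : K × K) : rho p (X 2) = lin p := by simp [rho]
@[simp] lemma rho_C (p : K × K) (a : K) : rho p (C a) = C a := by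
  simp [rho]

@[simp] lemma rho_lin (p q : K × K) : rho p (lin q) = lin q := by
  simp [lin]

lemma lin_sub (p q : K × K) : lin (p - q) = lin p - lin q := by
  simp only [lin, Prod.fst_sub, Prod.snd_sub, map_sub]
  ring

@[simp] lemma rho_ell (p q : K × K) : rho p (ell q) = lin (p - q) := by
  rw [ell, map_sub, rho_X2, rho_lin, lin_sub]

lemma rho_rho (p q : K × K) (F : MvPolynomial (Fin 3) K) : rho p (rho q F) = rho q F := by
  have h : (rho p).comp (rho q) = rho q := by
    apply MvPolynomial.algHom_ext
    intro i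
    fin_cases i <;> simp
  exact DFunLike.congr_fun h F

/-- two substitutions that agree modulo an ideal on the variables agree modulo the ideal -/
lemma sub_mem_of_gen (I : Ideal (MvPolynomial (Fin 3) K))
    (f g : MvPolynomial (Fin 3) K →ₐ[K] MvPolynomial (Fin 3) K)
    (h : ∀ i, f (X i) - g (X i) ∈ I) (F : MvPolynomial (Fin 3) K) : f F - g F ∈ I := by
  have h1 : (Ideal.Quotient.mkₐ K I).comp f = (Ideal.Quotient.mkₐ K I).comp g := by
    apply MvPolynomial.algHom_ext
    intro i
    simp only [AlgHom.comp_apply, Ideal.Quotient.mkₐ_eq_mk]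
    exact (Ideal.Quotient.eq).2 (h i)
  have h2 := DFunLike.congr_fun h1 F
  simp only [AlgHom.comp_apply, Ideal.Quotient.mkₐ_eq_mk] at h2
  exact (Ideal.Quotient.eq).1 h2

lemma ell_dvd_sub (p : K × K) (F : MvPolynomial (Fin 3) K) : ell p ∣ F - rho p F := by
  rw [← Ideal.mem_span_singleton]
  refine sub_mem_of_gen (Ideal.span {ell p}) (AlgHom.id K _) (rho p) ?_ F
  intro i
  fin_cases i
  · simp
  · simp
  · simp only [AlgHom.id_apply]
    exact Ideal.subset_span (by simp [ell])

lemma ell_dvd_iff (p : K × K) (F : MvPolynomial (Fin 3) K) : ell p ∣ F ↔ rho p F = 0 := by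
  constructor
  · rintro ⟨G, rfl⟩
    rw [map_mul, rho_ell, sub_self]
    simp [lin]
  · intro h
    have := ell_dvd_sub p F
    rwa [h, sub_zero] at this

lemma lin_dvd_rho_sub (p q : K × K) (F : MvPolynomial (Fin 3) K) :
    lin (p - q) ∣ rho p F - rho q F := by
  rw [← Ideal.mem_span_singleton]
  refine sub_mem_of_gen _ (rho p) (rho q) ?_ F
  intro i
  fin_cases i
  · simp
  · simp
  · simp only [Fin.reduceFinMk, rho_X2]
    rw [← lin_sub]
    exact Ideal.mem_span_singleton_self _

lemma lin_homog (p : K × K) : (lin p).IsHomogeneous 1 := by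
  unfold lin
  exact ((isHomogeneous_C_mul_X _ _)).add (isHomogeneous_C_mul_X _ _)

lemma ell_homog (p : K × K) : (ell p).IsHomogeneous 1 := (isHomogeneous_X _ _).sub (lin_homog p)

lemma prime_of_homog_one {F : MvPolynomial (Fin 3) K} (h : F.IsHomogeneous 1) (h0 : F ≠ 0) :
    Prime F := by
  apply Irreducible.prime
  apply irreducible_of_totalDegree_eq_one (h.totalDegree h0)
  intro x hx
  rw [isUnit_iff_ne_zero]
  rintro rfl
  apply h0
  ext m
  simpa using hx m

/-- the determinant of two vectors of the plane -/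
def det2 (p q : K × K) : K := p.1 * q.2 - p.2 * q.1

lemma lin_ne_zero {p : K × K} (h : p ≠ 0) : lin p ≠ 0 := by
  intro h1
  apply h
  have e1 := congrArg (eval ![1, 0, 0]) h1
  have e2 := congrArg (eval ![0, 1, 0]) h1
  simp [lin] at e1 e2
  exact Prod.ext e1 e2

lemma ell_ne_zero (p : K × K) : ell p ≠ 0 := by
  intro h1
  have e1 := congrArg (eval ![0, 0, 1]) h1
  simp [ell, lin] at e1

lemma lin_prime {p : K × K} (h : p ≠ 0) : Prime (lin p) :=
  prime_of_homog_one (lin_homog p) (lin_ne_zero h)

lemma ell_prime (p : K × K) : Prime (ell p) :=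
  prime_of_homog_one (ell_homog p) (ell_ne_zero p)

lemma det2_eq_zero_of_dvd {p q : K × K} (h : lin p ∣ lin q) : det2 p q = 0 := by
  obtain ⟨G, hG⟩ := h
  have e1 := congrArg (eval ![-p.2, p.1, 0]) hG
  simp [lin] at e1
  unfold det2
  have : p.2 * p.1 = p.1 * p.2 := mul_comm _ _
  rw [this] at e1
  simp at e1
  linear_combination e1

lemma ne_zero_of_det2 {p q : K × K} (h : det2 p q ≠ 0) : p ≠ 0 := by
  rintro rfl
  apply h
  simp [det2]

lemma lin_relPrime {p q : K × K} (h : det2 p q ≠ 0) : IsRelPrime (lin p) (lin q) := by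
  rw [(lin_prime (ne_zero_of_det2 h)).irreducible.isRelPrime_iff_not_dvd]
  intro h1
  exact h (det2_eq_zero_of_dvd h1)

lemma ell_relPrime {p q : K × K} (h : p ≠ q) : IsRelPrime (ell p) (ell q) := by
  rw [(ell_prime p).irreducible.isRelPrime_iff_not_dvd]
  intro h1
  rw [ell_dvd_iff, rho_ell] at h1
  exact lin_ne_zero (sub_ne_zero.2 h) h1

/-- a polynomial that vanishes on the lines `ell (c i)`, `i ∈ s`, is divisible by their product -/
lemma prod_ell_dvd {ι : Type} (s : Finset ι) (c : ι → K × K) (hc : Set.InjOn c s)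
    (F : MvPolynomial (Fin 3) K) (h : ∀ i ∈ s, rho (c i) F = 0) : (∏ i ∈ s, ell (c i)) ∣ F := by
  apply Finset.prod_dvd_of_isRelPrime
  · intro i hi j hj hij
    exact ell_relPrime fun h => hij (hc hi hj h)
  · intro i hi
    exact (ell_dvd_iff _ _).2 (h i hi)

lemma rho_prod_lin {ι : Type} (s : Finset ι) (v : ι → K × K) (p : K × K) :
    rho p (∏ j ∈ s, lin (v j)) = ∏ j ∈ s, lin (v j) := by
  rw [map_prod]
  simp

/-- **Interpolation.** Polynomials given on finitely many lines in general position that agree at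
the intersection points come from one polynomial. -/
lemma interp {ι : Type} [DecidableEq ι] (s : Finset ι) (c : ι → K × K)
    (hc : ∀ k ∈ s, ∀ i ∈ s, ∀ j ∈ s, k ≠ i → k ≠ j → i ≠ j → det2 (c k - c i) (c k - c j) ≠ 0)
    (f : ι → MvPolynomial (Fin 3) K)
    (h : ∀ i ∈ s, ∀ j ∈ s, i ≠ j → lin (c i - c j) ∣ rho (c i) (f i - f j)) :
    ∃ F, ∀ i ∈ s, rho (c i) F = rho (c i) (f i) := by
  induction s using Finset.induction_on with
  | empty => exact ⟨0, by simp⟩
  | insert k s hk ih =>
    obtain ⟨F', hF'⟩ := ih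
      (fun a ha i hi j hj => hc a (Finset.mem_insert_of_mem ha) i (Finset.mem_insert_of_mem hi) j
        (Finset.mem_insert_of_mem hj))
      (fun i hi j hj => h i (Finset.mem_insert_of_mem hi) j (Finset.mem_insert_of_mem hj))
    have h1 : (∏ j ∈ s, lin (c k - c j)) ∣ rho (c k) (f k - F') := by
      apply Finset.prod_dvd_of_isRelPrime
      · intro i hi j hj hij
        have hki : k ≠ i := fun e => hk (e ▸ hi)
        have hkj : k ≠ j := fun e => hk (e ▸ hj)
        exact lin_relPrime (hc k (Finset.mem_insert_self _ _) i (Finset.mem_insert_of_mem hi) j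
          (Finset.mem_insert_of_mem hj) hki hkj hij)
      · intro j hj
        have hkj : k ≠ j := fun e => hk (e ▸ hj)
        have e1 : rho (c k) (f k - F') = rho (c k) (f k - f j) +
            (rho (c k) (f j - F') - rho (c j) (f j - F')) := by
          rw [map_sub (rho (c j)), hF' j hj, sub_self, sub_zero, ← map_add]
          congr 1
          ring
        rw [e1]
        exact dvd_add (h k (Finset.mem_insert_self _ _) j (Finset.mem_insert_of_mem hj) hkj)
          (lin_dvd_rho_sub _ _ _)
    obtain ⟨G, hG⟩ := h1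
    refine ⟨F' + (∏ j ∈ s, ell (c j)) * rho (c k) G, ?_⟩
    intro i hi
    rw [Finset.mem_insert] at hi
    rcases hi with rfl | hi
    · have h2 := congrArg (rho (c i)) hG
      rw [rho_rho, map_mul, rho_prod_lin] at h2
      rw [map_add, map_mul, rho_rho, map_prod]
      simp only [rho_ell]
      rw [← h2, map_sub]
      ring
    · have h3 : rho (c i) (∏ j ∈ s, ell (c j)) = 0 := by
        rw [map_prod]
        apply Finset.prod_eq_zero hi
        rw [rho_ell, sub_self]
        simp [lin]
      rw [map_add, map_mul, h3, zero_mul, add_zero, hF' i hi]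

/-! ### homogeneity -/

lemma rho_homog (p : K × K) {F : MvPolynomial (Fin 3) K} {n : ℕ} (h : F.IsHomogeneous n) :
    (rho p F).IsHomogeneous n := by
  have := h.aeval (φ := F) (g := ![X 0, X 1, lin p]) (n := 1) (fun i => by
    fin_cases i
    · exact isHomogeneous_X _ _
    · exact isHomogeneous_X _ _
    · exact lin_homog p)
  rwa [one_mul] at this

lemma rho_component (p : K × K) (F : MvPolynomial (Fin 3) K) (n : ℕ) :
    rho p (homogeneousComponent n F) = homogeneousComponent n (rho p F) := by
  conv_rhs => rw [← sum_homogeneousComponent F]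
  rw [map_sum, map_sum]
  rw [Finset.sum_congr rfl (fun i _ => homogeneousComponent_of_mem
    (rho_homog p (homogeneousComponent_isHomogeneous i F)))]
  by_cases hn : n ∈ Finset.range (F.totalDegree + 1)
  · rw [Finset.sum_ite_eq, if_pos hn]
  · rw [Finset.sum_ite_eq, if_neg hn]
    rw [homogeneousComponent_eq_zero, map_zero]
    rw [Finset.mem_range] at hn
    omega

/-- homogeneous version of interpolation -/
lemma component_solves {ι : Type} (s : Finset ι) (c : ι → K × K)
    (f : ι → MvPolynomial (Fin 3) K) (n : ℕ) (hf : ∀ i ∈ s, (f i).IsHomogeneous n)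
    {F : MvPolynomial (Fin 3) K} (hF : ∀ i ∈ s, rho (c i) F = rho (c i) (f i)) :
    ∀ i ∈ s, rho (c i) (homogeneousComponent n F) = rho (c i) (f i) := by
  intro i hi
  rw [rho_component, hF i hi, homogeneousComponent_of_mem (rho_homog _ (hf i hi)), if_pos rfl]

end Pool.Agent.Q39.POG
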