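import Mathlib

set_option autoImplicit false

/-!
# Definitions for plus-one generated arrangements
-/

namespace Pool.Agent.Q39.POG

open MvPolynomial

variable {K : Type} [Field K] {l n : ℕ}

/-- The linear form `∑ j, a j * x_j`. -/
noncomputable def linearForm (a : Fin l → K) : MvPolynomial (Fin l) K :=
  ∑ j, C (a j) * X j

/-- The hyperplane `{x ∈ K^l | ∑ j, a j * x j = 0}`. -/
def hyperplane (a : Fin l → K) : Submodule K (Fin l → K) :=
  LinearMap.ker (∑ j, a j • (LinearMap.proj j : (Fin l → K) →ₗ[K] K))

/-- `A` is the family of coefficient vectors of a central arrangement of `n` distinct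
hyperplanes in `K^l`. -/
def IsArrangement (A : Fin n → Fin l → K) : Prop :=
  (∀ i, A i ≠ 0) ∧ Function.Injective fun i => hyperplane (A i)

/-- The arrangement is essential: its hyperplanes meet only in the origin. -/
def Essential (A : Fin n → Fin l → K) : Prop :=
  (⨅ i, hyperplane (A i)) = ⊥

/-- The set of all intersections of subfamilies of the hyperplanes (the empty intersection
being `K^l`), ordered by inclusion. -/
def intersections (A : Fin n → Fin l → K) : Set (Submodule K (Fin l → K)) :=
  {W | ∃ s : Set (Fin n), W = ⨅ i ∈ s, hyperplane (A i)}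

/-- The intersection lattice `L(A)`: all intersections of the hyperplanes, ordered by reverse
inclusion. -/
abbrev Lattice (A : Fin n → Fin l → K) : Type := (intersections A)ᵒᵈ

/-- The module `D(A)` of logarithmic derivations: all `K`-linear derivations `θ` of the
polynomial ring `S` with `θ(α_i) ∈ α_i S` for each defining form `α_i`. -/
noncomputable def logDer (A : Fin n → Fin l → K) :
    Submodule (MvPolynomial (Fin l) K)
      (Derivation K (MvPolynomial (Fin l) K) (MvPolynomial (Fin l) K)) where
  carrier := {θ | ∀ i, linearForm (A i) ∣ θ (linearForm (A i))}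
  add_mem' := fun {θ η} hθ hη i => by
    rw [Derivation.add_apply]
    exact dvd_add (hθ i) (hη i)
  zero_mem' := fun i => by rw [Derivation.zero_apply]; exact dvd_zero _
  smul_mem' := fun r θ hθ i => by
    rw [Derivation.smul_apply, smul_eq_mul]
    exact dvd_mul_of_dvd_right (hθ i) r

/-- The derivation `∑ j, f_j ∂/∂x_j`, with `f_j = θ(x_j)`, is homogeneous of degree `p`: every
`f_j` is homogeneous of degree `p`. -/
def IsHomogeneousDer
    (θ : Derivation K (MvPolynomial (Fin l) K) (MvPolynomial (Fin l) K)) (p : ℕ) : Prop :=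
  ∀ j, (θ (X j)).IsHomogeneous p

/-- `D(A)` has a minimal graded free resolution
`0 → S[-d-1] → S[-d] ⊕ ⨁ i, S[-e i] → D(A) → 0`
whose first map is `(linearForm a, f_1, …, f_l)`: there are homogeneous `θ_i` (of degree `e i`) and
`φ` (of degree `d`) that generate `D(A)`, and `f_i` such that the relations between
`θ_1, …, θ_l, φ` are exactly the multiples of the one relation
`∑ i, f_i θ_i + linearForm a * φ = 0`.
The relation is not zero, so that the first map is injective, and each `f_i` is zero or homogeneous
of degree `d + 1 - e i ≥ 1`, so that the resolution is graded and minimal. -/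
def HasPlusOneResolution (A : Fin n → Fin l → K) (e : Fin l → ℕ) (d : ℕ) (a : Fin l → K) : Prop :=
  ∃ (θ : Fin l → Derivation K (MvPolynomial (Fin l) K) (MvPolynomial (Fin l) K))
    (φ : Derivation K (MvPolynomial (Fin l) K) (MvPolynomial (Fin l) K))
    (f : Fin l → MvPolynomial (Fin l) K),
    (∀ i, IsHomogeneousDer (θ i) (e i)) ∧ IsHomogeneousDer φ d ∧
    (∀ i, f i = 0 ∨ ∃ k, 1 ≤ k ∧ e i + k = d + 1 ∧ (f i).IsHomogeneous k) ∧
    ¬ (a = 0 ∧ f = 0) ∧
    Submodule.span (MvPolynomial (Fin l) K) (insert φ (Set.range θ)) = logDer A ∧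
    ∀ (g : Fin l → MvPolynomial (Fin l) K) (h : MvPolynomial (Fin l) K),
      (∑ i, g i • θ i) + h • φ = 0 ↔
        ∃ c : MvPolynomial (Fin l) K, (∀ i, g i = c * f i) ∧ h = c * linearForm a

/-- `A` is plus-one generated with exponents `e` and level `d`. -/
def IsPlusOneGenerated (A : Fin n → Fin l → K) (e : Fin l → ℕ) (d : ℕ) : Prop :=
  ∃ a : Fin l → K, HasPlusOneResolution A e d a

/-- `A` is strictly plus-one generated with exponents `e` and level `d`: there is such a resolution
in which the linear form is not zero. -/
def IsStrictlyPlusOneGenerated (A : Fin n → Fin l → K) (e : Fin l → ℕ) (d : ℕ) : Prop :=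
  ∃ a : Fin l → K, a ≠ 0 ∧ HasPlusOneResolution A e d a

end Pool.Agent.Q39.POG
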