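import Pool.Agent.Q39.POG.Pencil
import Pool.Agent.Q39.POG.Grade

set_option autoImplicit false

/-!
# A criterion for the module of logarithmic vector fields to need five generators
-/

namespace Pool.Agent.Q39.POG

open MvPolynomial

variable {K : Type} [Field K] {n m : ℕ}

/-- lowest components of a product -/
lemma comp_low (F G : MvPolynomial (Fin 3) K) (d : ℕ)
    (hG : ∀ j < d, homogeneousComponent j G = 0) :
    homogeneousComponent d (F * G) = C (coeff 0 F) * homogeneousComponent d G := by
  ext μ
  rw [coeff_C_mul, coeff_homogeneousComponent, coeff_homogeneousComponent]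
  by_cases h : μ.degree = d
  · rw [if_pos h, if_pos h]
    subst h
    exact coeff_mul_low F G μ hG
  · rw [if_neg h, if_neg h, mul_zero]

/-- if all admissible polynomials have order at least two, the components of low degree of the
third parameter vanish -/
lemma w_low (c : Fin n → K × K) (hc : Function.Injective c) {v : Fin m → K × K}
    {p0 p1 : MvPolynomial (Fin 3) K} (h : Sys v p0 p1)
    {q w : MvPolynomial (Fin 3) K} (hq : ∀ j < 2, homogeneousComponent j q = 0)
    (hn : n ≤ 2 + (m - 1))
    (hw : ∀ i, rho (c i) w = rho (c i) (q * phi p0 p1 (c i))) (j : ℕ) (hj : j < n) :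
    homogeneousComponent j w = 0 := by
  have h1 : hh c ∣ homogeneousComponent j w := by
    apply prod_ell_dvd Finset.univ c hc.injOn
    intro i _
    rw [rho_component, hw i, ← rho_component]
    rw [comp_mul_eq_zero (phi_homog h (c i)) hq (by omega), map_zero]
  have h2 := component_eq_zero_of_dvd (hh_homog c) h1 hj
  rwa [homogeneousComponent_of_mem (homogeneousComponent_isHomogeneous j w), if_pos rfl] at h2

/-- the five functionals -/
noncomputable def Lam (n : ℕ) (μ : Fin 3 → (Fin 3 →₀ ℕ)) (e q w : MvPolynomial (Fin 3) K) :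
    Fin 5 → K :=
  ![coeff 0 e, coeff (μ 0) q, coeff (μ 1) q, coeff (μ 2) q,
    eval ![0, 0, 1] (homogeneousComponent n w)]

theorem five_generators (c : Fin n → K × K) (v : Fin m → K × K) (hc : Function.Injective c)
    (hg : GenPos c) (hv : ∀ k, v k ≠ 0) (hv2 : ∀ k l, k ≠ l → det2 (v k) (v l) ≠ 0)
    (hm : 0 < m) (hn : n < 2 + (m - 1))
    (hlow : ∀ q, Adm c v q → ∀ j < 2, homogeneousComponent j q = 0)
    (μ : Fin 3 → (Fin 3 →₀ ℕ)) (hμ : ∀ i, (μ i).degree = 2) (q : Fin 3 → MvPolynomial (Fin 3) K)
    (hq : ∀ i, Adm c v (q i)) (hq2 : ∀ i, (q i).IsHomogeneous 2)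
    (hqμ : ∀ i j, i ≠ j → coeff (μ j) (q i) = 0) (hqμ' : ∀ i, coeff (μ i) (q i) ≠ 0)
    (θ : Fin 4 → Fin 3 → MvPolynomial (Fin 3) K) (hθ : ∀ i, IsLog c v (θ i))
    (hspan : ∀ η, IsLog c v η → ∃ g : Fin 4 → MvPolynomial (Fin 3) K, η = ∑ i, g i • θ i) :
    False := by
  obtain ⟨p0, p1, h⟩ := exists_sys hm v
  have hθ' := fun i => (isLog_iff c hv hv2 h (θ i)).1 (hθ i)
  choose E Q W hE0 hE1 hE2 hEW using hθ'
  -- every admissible triple is mapped into the span of four vectors
  have key : ∀ e r w : MvPolynomial (Fin 3) K,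
      (∀ i, rho (c i) w = rho (c i) (r * phi p0 p1 (c i))) →
      Lam n μ e r w ∈ Submodule.span K (Set.range fun i => Lam n μ (E i) (Q i) (W i)) := by
    intro e r w hw
    obtain ⟨g, hgen⟩ := hspan ![e * X 0 + r * p0, e * X 1 + r * p1, e * X 2 + w]
      ((isLog_iff c hv hv2 h _).2 ⟨e, r, w, by simp, by simp, by simp, hw⟩)
    have f0 := congrFun hgen 0
    have f1 := congrFun hgen 1
    have f2 := congrFun hgen 2
    simp only [Finset.sum_apply, Pi.smul_apply, smul_eq_mul, hE0, hE1, hE2,
      Matrix.cons_val_zero, Matrix.cons_val_one, Matrix.cons_val] at f0 f1 f2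
    have s0 : ∑ i, g i * (E i * X 0 + Q i * p0) =
        (∑ i, g i * E i) * X 0 + (∑ i, g i * Q i) * p0 := by
      simp only [Fin.sum_univ_four]; ring
    have s1 : ∑ i, g i * (E i * X 1 + Q i * p1) =
        (∑ i, g i * E i) * X 1 + (∑ i, g i * Q i) * p1 := by
      simp only [Fin.sum_univ_four]; ring
    have s2 : ∑ i, g i * (E i * X 2 + W i) =
        (∑ i, g i * E i) * X 2 + ∑ i, g i * W i := by
      simp only [Fin.sum_univ_four]; ring
    rw [s0] at f0
    rw [s1] at f1
    rw [s2] at f2
    obtain ⟨r0, r1⟩ := rep_unique hv h (e := e - ∑ i, g i * E i) (q := r - ∑ i, g i * Q i)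
      (by linear_combination f0) (by linear_combination f1)
    rw [sub_eq_zero] at r0 r1
    have r2 : w = ∑ i, g i * W i := by
      rw [r0] at f2
      linear_combination f2
    have hQ : ∀ i, Adm c v (Q i) := fun i => adm_of_solution c hc h (hEW i)
    have hL : Lam n μ e r w = ∑ i, coeff 0 (g i) • Lam n μ (E i) (Q i) (W i) := by
      funext k
      rw [Finset.sum_apply]
      fin_cases k
      · change coeff 0 e = ∑ i, coeff 0 (g i) * coeff 0 (E i)
        rw [r0, coeff_sum]
        refine Finset.sum_congr rfl fun i _ => ?_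
        exact coeff_mul_low _ _ 0 (fun j hj => absurd hj (by simp))
      · change coeff (μ 0) r = ∑ i, coeff 0 (g i) * coeff (μ 0) (Q i)
        rw [r1, coeff_sum]
        refine Finset.sum_congr rfl fun i _ => ?_
        exact coeff_mul_low _ _ _ (fun j hj => hlow _ (hQ i) j (by rwa [hμ] at hj))
      · change coeff (μ 1) r = ∑ i, coeff 0 (g i) * coeff (μ 1) (Q i)
        rw [r1, coeff_sum]
        refine Finset.sum_congr rfl fun i _ => ?_
        exact coeff_mul_low _ _ _ (fun j hj => hlow _ (hQ i) j (by rwa [hμ] at hj))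
      · change coeff (μ 2) r = ∑ i, coeff 0 (g i) * coeff (μ 2) (Q i)
        rw [r1, coeff_sum]
        refine Finset.sum_congr rfl fun i _ => ?_
        exact coeff_mul_low _ _ _ (fun j hj => hlow _ (hQ i) j (by rwa [hμ] at hj))
      · change eval ![0, 0, 1] (homogeneousComponent n w) =
          ∑ i, coeff 0 (g i) * eval ![0, 0, 1] (homogeneousComponent n (W i))
        rw [r2]
        simp only [map_sum]
        refine Finset.sum_congr rfl fun i _ => ?_
        rw [comp_low _ _ _ (fun j hj => w_low c hc h (hlow _ (hQ i)) hn.le (hEW i) j hj)]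
        rw [map_mul, eval_C]
    rw [hL]
    exact Submodule.sum_mem _ fun i _ => Submodule.smul_mem _ _
      (Submodule.subset_span ⟨i, rfl⟩)
  -- the five standard vectors
  have hstd : ∀ k : Fin 5, (Pi.single k 1 : Fin 5 → K) ∈
      Submodule.span K (Set.range fun i => Lam n μ (E i) (Q i) (W i)) := by
    have hqk : ∀ i : Fin 3, ∃ w : MvPolynomial (Fin 3) K, w.IsHomogeneous (2 + (m - 1)) ∧
        ∀ k, rho (c k) w = rho (c k) (q i * phi p0 p1 (c k)) := fun i =>
      exists_homog_solution c hc hg h (hq i) (hq2 i)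
    have hcomp : ∀ w : MvPolynomial (Fin 3) K, w.IsHomogeneous (2 + (m - 1)) →
        homogeneousComponent n w = 0 := by
      intro w hw
      rw [homogeneousComponent_of_mem hw, if_neg (by omega)]
    intro k
    fin_cases k
    · have := key 1 0 0 (fun i => by simp)
      have e : Lam n μ (1 : MvPolynomial (Fin 3) K) 0 0 = Pi.single 0 1 := by
        funext j
        fin_cases j <;> simp [Lam]
      rw [e] at this
      exact this
    · obtain ⟨w, hw, hw2⟩ := hqk 0
      have := key 0 (q 0) w hw2
      have e : Lam n μ (0 : MvPolynomial (Fin 3) K) (q 0) w =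
          coeff (μ 0) (q 0) • (Pi.single 1 1 : Fin 5 → K) := by
        funext j
        fin_cases j <;> simp [Lam, hcomp w hw, hqμ 0 1 (by decide), hqμ 0 2 (by decide)]
      rw [e] at this
      exact (Submodule.smul_mem_iff _ (hqμ' 0)).1 this
    · obtain ⟨w, hw, hw2⟩ := hqk 1
      have := key 0 (q 1) w hw2
      have e : Lam n μ (0 : MvPolynomial (Fin 3) K) (q 1) w =
          coeff (μ 1) (q 1) • (Pi.single 2 1 : Fin 5 → K) := by
        funext j
        fin_cases j <;> simp [Lam, hcomp w hw, hqμ 1 0 (by decide), hqμ 1 2 (by decide)]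
      rw [e] at this
      exact (Submodule.smul_mem_iff _ (hqμ' 1)).1 this
    · obtain ⟨w, hw, hw2⟩ := hqk 2
      have := key 0 (q 2) w hw2
      have e : Lam n μ (0 : MvPolynomial (Fin 3) K) (q 2) w =
          coeff (μ 2) (q 2) • (Pi.single 3 1 : Fin 5 → K) := by
        funext j
        fin_cases j <;> simp [Lam, hcomp w hw, hqμ 2 0 (by decide), hqμ 2 1 (by decide)]
      rw [e] at this
      exact (Submodule.smul_mem_iff _ (hqμ' 2)).1 this
    · have := key 0 0 (hh c) (fun i => by
        rw [zero_mul, map_zero, ← ell_dvd_iff]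
        exact Finset.dvd_prod_of_mem _ (Finset.mem_univ i))
      have e : Lam n μ (0 : MvPolynomial (Fin 3) K) 0 (hh c) = Pi.single 4 1 := by
        have e1 : eval ![0, 0, 1] (homogeneousComponent n (hh c)) = 1 := by
          rw [homogeneousComponent_of_mem (hh_homog c), if_pos rfl, hh, map_prod]
          apply Finset.prod_eq_one
          intro i _
          simp [ell, lin]
        funext j
        fin_cases j <;> simp [Lam, e1]
      rw [e] at this
      exact this
  have htop : Submodule.span K (Set.range fun i => Lam n μ (E i) (Q i) (W i)) = ⊤ := by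
    rw [eq_top_iff]
    intro x _
    have : x = ∑ k, x k • (Pi.single k 1 : Fin 5 → K) := by
      funext j
      simp [Finset.sum_apply, Pi.single_apply]
    rw [this]
    exact Submodule.sum_mem _ fun k _ => Submodule.smul_mem _ _ (hstd k)
  have h5 := finrank_range_le_card (R := K) (fun i => Lam n μ (E i) (Q i) (W i))
  rw [Set.finrank, htop] at h5
  simp at h5

end Pool.Agent.Q39.POG
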