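import Pool.Agent.Q39.POG.Pair
import Pool.Agent.Q39.POG.Defs
import Pool.Agent.H158R3.Lat

set_option autoImplicit false

/-!
# The link between the definitions and the computations
-/

namespace Pool.Agent.Q39.POG

open MvPolynomial

variable {K : Type} [Field K] {l n : ℕ}

lemma mem_hyperplane (a x : Fin l → K) : x ∈ hyperplane a ↔ ∑ j, a j * x j = 0 := by
  rw [hyperplane, LinearMap.mem_ker, LinearMap.sum_apply]
  simp

lemma hyperplane_eq (a : Fin l → K) : hyperplane a = Pool.Agent.H158R3.hyp a := by
  ext x
  rw [mem_hyperplane]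
  rfl

lemma intersections_eq (A : Fin n → Fin l → K) :
    intersections A = Pool.Agent.H158R3.LL A := by
  unfold intersections Pool.Agent.H158R3.LL
  simp only [hyperplane_eq]

lemma vecs_left (c : Fin 6 → K × K) (k : Fin 12) :
    vecs c (Fin.castAdd 6 k) = ![(vv c k).1, (vv c k).2, 0] := by simp [vecs]

lemma vecs_right (c : Fin 6 → K × K) (i : Fin 6) :
    vecs c (Fin.natAdd 12 i) = ![-(c i).1, -(c i).2, 1] := by simp [vecs]

lemma span_vecs {c : Fin 6 → K × K} (h : Good c) :
    Submodule.span K (Set.range (vecs c)) = ⊤ := by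
  have hd : Matrix.det (Matrix.of
      (fun i => vecs c ((![Fin.natAdd 12 0, Fin.natAdd 12 1, Fin.natAdd 12 2] :
        Fin 3 → Fin (12 + 6)) i))) ≠ 0 := by
    rw [det3_eq _ _ _ _ (vecs_right c 0) (vecs_right c 1) (vecs_right c 2)]
    have := genPos h 0 1 2 (by decide) (by decide) (by decide)
    intro h0
    apply this
    simp at h0
    simp only [det2, Prod.fst_sub, Prod.snd_sub]
    linear_combination h0
  have h2 : LinearIndependent K (fun i => vecs c ((![Fin.natAdd 12 0, Fin.natAdd 12 1,
      Fin.natAdd 12 2] : Fin 3 → Fin (12 + 6)) i)) :=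
    Matrix.linearIndependent_rows_of_det_ne_zero hd
  have h3 := h2.span_eq_top_of_card_eq_finrank' (by simp)
  rw [eq_top_iff, ← h3]
  apply Submodule.span_mono
  rintro _ ⟨i, rfl⟩
  exact ⟨_, rfl⟩

lemma lattice_vecs {c c' : Fin 6 → K × K} (h : Good c) (h' : Good c') :
    Nonempty (Lattice (vecs c) ≃o Lattice (vecs c')) := by
  have hn : Nonempty ((intersections (vecs c)) ≃o (intersections (vecs c'))) := by
    rw [intersections_eq, intersections_eq]
    apply Pool.Agent.H158R3.lattice_iso_of_indep
    intro t
    constructor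
    · exact Pool.Agent.H158R3.indep_of_minors (span_vecs h) (fun e => minors h' e) t
    · exact Pool.Agent.H158R3.indep_of_minors (span_vecs h') (fun e => minors h e) t
  obtain ⟨e⟩ := hn
  exact ⟨e.dual⟩

lemma essential_vecs {c : Fin 6 → K × K} (h : Good c) : Essential (vecs c) := by
  unfold Essential
  rw [eq_bot_iff]
  intro y hy
  rw [Submodule.mem_iInf] at hy
  have h1 : ∀ u ∈ Submodule.span K (Set.range (vecs c)), ∑ j, u j * y j = 0 := by
    intro u hu
    induction hu using Submodule.span_induction with
    | mem v hv =>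
      obtain ⟨i, rfl⟩ := hv
      exact (mem_hyperplane _ _).1 (hy i)
    | zero => simp
    | add v w _ _ hv hw =>
      simp only [Pi.add_apply, add_mul, Finset.sum_add_distrib, hv, hw, add_zero]
    | smul c v _ hv =>
      simp only [Pi.smul_apply, smul_eq_mul, mul_assoc, ← Finset.mul_sum, hv, mul_zero]
  rw [Submodule.mem_bot]
  funext j
  have h2 := h1 (Pi.single j 1) (by rw [span_vecs h]; trivial)
  simpa [Pi.single_apply] using h2

/-- parallel vectors have vanishing minors -/
lemma hyperplane_le {a b : Fin 3 → K} (h : hyperplane a = hyperplane b) :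
    a 0 * b 1 - a 1 * b 0 = 0 ∧ a 0 * b 2 - a 2 * b 0 = 0 ∧ a 1 * b 2 - a 2 * b 1 = 0 := by
  have key : ∀ x : Fin 3 → K, ∑ j, a j * x j = 0 → ∑ j, b j * x j = 0 := by
    intro x hx
    rw [← mem_hyperplane, ← h, mem_hyperplane]
    exact hx
  refine ⟨?_, ?_, ?_⟩
  · have := key ![-(a 1), a 0, 0] (by simp [Fin.sum_univ_three]; ring)
    simp [Fin.sum_univ_three] at this
    linear_combination this
  · have := key ![-(a 2), 0, a 0] (by simp [Fin.sum_univ_three]; ring)
    simp [Fin.sum_univ_three] at this
    linear_combination this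
  · have := key ![0, -(a 2), a 1] (by simp [Fin.sum_univ_three]; ring)
    simp [Fin.sum_univ_three] at this
    linear_combination this

lemma arrangement_vecs {c : Fin 6 → K × K} (h : Good c) : IsArrangement (vecs c) := by
  refine ⟨fun i => ?_, fun i j hij => ?_⟩
  · intro h0
    induction i using Fin.addCases with
    | left i =>
      have e0 := congrFun h0 0
      have e1 := congrFun h0 1
      simp [vecs] at e0 e1
      exact vv_ne h i (Prod.ext e0 e1)
    | right i =>
      have e2 := congrFun h0 2
      simp [vecs] at e2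
  · have hij' := hyperplane_le hij
    clear hij
    by_contra hne
    induction i using Fin.addCases with
    | left i =>
      induction j using Fin.addCases with
      | left j =>
        have hne' : i ≠ j := fun e => hne (by rw [e])
        have := hij'.1
        simp [vecs] at this
        exact vv_det h i j hne' (by simp only [det2]; linear_combination this)
      | right j =>
        have e1 := hij'.2.1
        have e2 := hij'.2.2
        simp [vecs] at e1 e2
        exact vv_ne h i (Prod.ext e1 e2)
    | right i =>
      induction j using Fin.addCases with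
      | left j =>
        have e1 := hij'.2.1
        have e2 := hij'.2.2
        simp [vecs] at e1 e2
        exact vv_ne h j (Prod.ext e1 e2)
      | right j =>
        have hne' : i ≠ j := fun e => hne (by rw [e])
        have e1 := hij'.2.1
        have e2 := hij'.2.2
        simp [vecs] at e1 e2
        exact hne' (cK_inj h (Prod.ext (by linear_combination -e1) (by linear_combination -e2)))

/-! ### derivations and triples -/

/-- the abbreviation for derivations of `K[x, y, z]` -/
abbrev Der3 (K : Type) [Field K] : Type :=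
  Derivation K (MvPolynomial (Fin 3) K) (MvPolynomial (Fin 3) K)

lemma der_linearForm (θ : Derivation K (MvPolynomial (Fin l) K) (MvPolynomial (Fin l) K))
    (a : Fin l → K) : θ (linearForm a) = ∑ j, C (a j) * θ (X j) := by
  rw [linearForm, map_sum]
  refine Finset.sum_congr rfl fun j _ => ?_
  rw [Derivation.leibniz]
  simp

lemma mem_logDer_iff (c : Fin 6 → K × K) (θ : Der3 K) :
    θ ∈ logDer (vecs c) ↔ IsLog c (vv c) (fun j => θ (X j)) := by
  have hl : ∀ k : Fin 12, linearForm (vecs c (Fin.castAdd 6 k)) = lin (vv c k) := by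
    intro k
    simp [linearForm, vecs, lin, Fin.sum_univ_three]
  have he : ∀ i : Fin 6, linearForm (vecs c (Fin.natAdd 12 i)) = ell (c i) := by
    intro i
    simp [linearForm, vecs, ell, lin, Fin.sum_univ_three]
    ring
  have hl' : ∀ k : Fin 12, θ (linearForm (vecs c (Fin.castAdd 6 k))) =
      C (vv c k).1 * θ (X 0) + C (vv c k).2 * θ (X 1) := by
    intro k
    rw [der_linearForm]
    simp [vecs, Fin.sum_univ_three]
  have he' : ∀ i : Fin 6, θ (linearForm (vecs c (Fin.natAdd 12 i))) =
      θ (X 2) - C (c i).1 * θ (X 0) - C (c i).2 * θ (X 1) := by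
    intro i
    rw [der_linearForm]
    simp [vecs, Fin.sum_univ_three]
    ring
  constructor
  · intro h
    refine ⟨fun i => ?_, fun k => ?_⟩
    · rw [← he, ← he']
      exact h _
    · rw [← hl, ← hl']
      exact h _
  · rintro ⟨h1, h2⟩ i
    induction i using Fin.addCases with
    | left k => rw [hl', hl]; exact h2 k
    | right i => rw [he', he]; exact h1 i

/-- the derivation with given values on the variables -/
noncomputable def mk (θ : Fin 3 → MvPolynomial (Fin 3) K) : Der3 K := mkDerivation K θ

lemma mk_X (θ : Fin 3 → MvPolynomial (Fin 3) K) (j : Fin 3) : mk θ (X j) = θ j := by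
  simp [mk]

lemma mk_mem_iff (c : Fin 6 → K × K) (θ : Fin 3 → MvPolynomial (Fin 3) K) :
    mk θ ∈ logDer (vecs c) ↔ IsLog c (vv c) θ := by
  rw [mem_logDer_iff]
  have : (fun j => mk θ (X j)) = θ := by funext j; exact mk_X θ j
  rw [this]

lemma eq_mk (θ : Der3 K) : θ = mk fun j => θ (X j) := by
  apply MvPolynomial.derivation_ext
  intro j
  rw [mk_X]

lemma mk_add (θ η : Fin 3 → MvPolynomial (Fin 3) K) : mk (θ + η) = mk θ + mk η := by
  apply MvPolynomial.derivation_ext
  intro j
  rw [Derivation.add_apply, mk_X, mk_X, mk_X, Pi.add_apply]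

lemma mk_smul (g : MvPolynomial (Fin 3) K) (θ : Fin 3 → MvPolynomial (Fin 3) K) :
    mk (g • θ) = g • mk θ := by
  apply MvPolynomial.derivation_ext
  intro j
  rw [Derivation.smul_apply, mk_X, mk_X, Pi.smul_apply]

lemma mk_inj {θ η : Fin 3 → MvPolynomial (Fin 3) K} (h : mk θ = mk η) : θ = η := by
  funext j
  rw [← mk_X θ, h, mk_X]

lemma mk_zero : mk (0 : Fin 3 → MvPolynomial (Fin 3) K) = 0 := by
  apply MvPolynomial.derivation_ext
  intro j
  rw [mk_X]
  simp

end Pool.Agent.Q39.POG
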