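import Pool.Agent.Q39.POG.Link

set_option autoImplicit false

/-!
# Two arrangements of eighteen lines with the same lattice, one of them plus-one generated
-/

namespace Pool.Agent.Q39.POG

open MvPolynomial

/-- first configuration: the lines joining the first two, the next two and the last two points
pass through the origin -/
def czA : Fin 6 → ℤ × ℤ := ![(-4, 0), (-3, 0), (0, -3), (0, -2), (1, 1), (2, 2)]

/-- second configuration: those three lines have no common point -/
def czB : Fin 6 → ℤ × ℤ := ![(-4, 0), (-3, 0), (0, -3), (0, -2), (1, 1), (3, 2)]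

/-- integer determinant of two differences -/
def dz (c : Fin 6 → ℤ × ℤ) (i j k l : Fin 6) : ℤ :=
  ((c i).1 - (c j).1) * ((c k).2 - (c l).2) - ((c i).2 - (c j).2) * ((c k).1 - (c l).1)

/-- the product of the primes up to 29 -/
def DD : ℕ := 2 * 3 * 5 * 7 * 11 * 13 * 17 * 19 * 23 * 29

lemma dzA : ∀ i j k l : Fin 6, i ≠ j → k ≠ l → ¬ ((i = k ∧ j = l) ∨ (i = l ∧ j = k)) →
    dz czA i j k l ∣ (DD : ℤ) ^ 4 := by decide +kernel

lemma dzB : ∀ i j k l : Fin 6, i ≠ j → k ≠ l → ¬ ((i = k ∧ j = l) ∨ (i = l ∧ j = k)) →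
    dz czB i j k l ∣ (DD : ℤ) ^ 4 := by decide +kernel

variable (K : Type) [Field K]

/-- cast to the field -/
def toK (c : Fin 6 → ℤ × ℤ) : Fin 6 → K × K := fun i => (((c i).1 : K), ((c i).2 : K))

lemma DD_ne (hK : ringChar K = 0 ∨ 29 < ringChar K) : ((DD : ℕ) : K) ≠ 0 := by
  intro h
  have h1 : ringChar K ∣ DD := (ringChar.spec K DD).1 h
  rcases hK with hK | hK
  · rw [hK, zero_dvd_iff] at h1
    exact absurd h1 (by decide)
  · rcases CharP.char_is_prime_or_zero K (ringChar K) with hp | hp
    · unfold DD at h1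
      simp only [hp.dvd_mul] at h1
      have : ringChar K ≤ 29 := by
        rcases h1 with (((((((((h | h) | h) | h) | h) | h) | h) | h) | h) | h) <;>
          exact (Nat.le_of_dvd (by norm_num) h).trans (by norm_num)
      omega
    · omega

lemma good_of (hK : ringChar K = 0 ∨ 29 < ringChar K) (c : Fin 6 → ℤ × ℤ)
    (hc : ∀ i j k l : Fin 6, i ≠ j → k ≠ l → ¬ ((i = k ∧ j = l) ∨ (i = l ∧ j = k)) →
      dz c i j k l ∣ (DD : ℤ) ^ 4) : Good (toK K c) := by
  intro i j k l h1 h2 h3 h0
  have e : det2 (toK K c i - toK K c j) (toK K c k - toK K c l) = ((dz c i j k l : ℤ) : K) := by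
    simp [det2, toK, dz]
  rw [e] at h0
  obtain ⟨q, hq⟩ := hc i j k l h1 h2 h3
  have h4 := congrArg (Int.cast : ℤ → K) hq
  rw [Int.cast_mul, h0, zero_mul] at h4
  push_cast at h4
  exact DD_ne K hK (pow_eq_zero_iff (by norm_num) |>.1 h4)

variable {K}

lemma lin_mk (a b : K) : lin (a, b) = C a * X 0 + C b * X 1 := rfl

lemma X1_prime : Prime (X 1 : MvPolynomial (Fin 3) K) := by
  have : (X 1 : MvPolynomial (Fin 3) K) = lin ((0 : K), (1 : K)) := by simp [lin]
  rw [this]
  exact lin_prime (by intro h; exact one_ne_zero (congrArg Prod.snd h))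

lemma X2_prime : Prime (X 2 : MvPolynomial (Fin 3) K) := by
  have : (X 2 : MvPolynomial (Fin 3) K) = ell ((0 : K), (0 : K)) := by simp [ell, lin]
  rw [this]
  exact ell_prime _

lemma dvd_rho_zero {w p : K × K} {q : MvPolynomial (Fin 3) K} (h : lin w ∣ rho p q)
    (h2 : lin w ∣ lin p) : lin w ∣ rho 0 q := by
  have h1 := lin_dvd_rho_sub p 0 q
  rw [sub_zero] at h1
  have : rho 0 q = rho p q - (rho p q - rho 0 q) := by ring
  rw [this]
  exact dvd_sub h (h2.trans h1)

section A

lemma a01 : toK K czA 0 - toK K czA 1 = (-1, 0) := by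
  ext <;> simp [toK, czA]; ring
lemma a23 : toK K czA 2 - toK K czA 3 = (0, -1) := by
  ext <;> simp [toK, czA]; ring
lemma a45 : toK K czA 4 - toK K czA 5 = (-1, -1) := by
  ext <;> simp [toK, czA] <;> ring
lemma a0 : toK K czA 0 = (-4, 0) := by ext <;> simp [toK, czA]
lemma a2 : toK K czA 2 = (0, -3) := by ext <;> simp [toK, czA]
lemma a4 : toK K czA 4 = (1, 1) := by ext <;> simp [toK, czA]

/-- the cubic `x y (x + y)` -/
noncomputable def NA (K : Type) [Field K] : MvPolynomial (Fin 3) K := X 0 * X 1 * (X 0 + X 1)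

lemma NA_homog : (NA K).IsHomogeneous 3 :=
  ((isHomogeneous_X _ _).mul (isHomogeneous_X _ _)).mul
    ((isHomogeneous_X _ _).add (isHomogeneous_X _ _))

lemma rho_NA (p : K × K) : rho p (NA K) = NA K := by simp [NA]

lemma NA_ne (h2 : (2 : K) ≠ 0) : ¬ X 2 ∣ NA K := by
  rintro ⟨G, hG⟩
  have := congrArg (eval ![1, 1, 0]) hG
  simp [NA] at this
  norm_num at this
  exact h2 this

lemma ciA (hg : Good (toK K czA)) (h2 : (2 : K) ≠ 0) :
    IsCI (toK K czA) (vv (toK K czA)) (X 2) (NA K) 1 3 := by
  refine ⟨fun q => ?_, isHomogeneous_X _ _, NA_homog, ?_⟩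
  · rw [adm_iff3 hg, a01, a23, a45, a0, a2, a4]
    constructor
    · rintro ⟨h0, h1, h2⟩
      have e0 : lin ((-1 : K), (0 : K)) ∣ rho 0 q := by
        refine dvd_rho_zero h0 ⟨C 4, ?_⟩
        simp only [lin_mk, ← map_mul, map_neg, map_zero, map_one]
        ring
      have e1 : lin ((0 : K), (-1 : K)) ∣ rho 0 q := by
        refine dvd_rho_zero h1 ⟨C 3, ?_⟩
        simp only [lin_mk, map_neg, map_zero, map_one]
        ring
      have e2 : lin ((-1 : K), (-1 : K)) ∣ rho 0 q := by
        refine dvd_rho_zero h2 ⟨-1, ?_⟩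
        simp only [lin_mk, map_neg, map_one]
        ring
      have e3 : NA K ∣ rho 0 q := by
        have : lin ((-1 : K), (0 : K)) * lin ((0 : K), (-1 : K)) * lin ((-1 : K), (-1 : K)) ∣
            rho 0 q := by
          apply IsRelPrime.mul_dvd
          · apply IsRelPrime.mul_left
            · apply lin_relPrime; simp [det2]
            · apply lin_relPrime; simp [det2]
          · apply IsRelPrime.mul_dvd
            · apply lin_relPrime; simp [det2]
            · exact e0
            · exact e1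
          · exact e2
        refine Dvd.dvd.trans ⟨-1, ?_⟩ this
        simp only [lin_mk, map_neg, map_one, map_zero, NA]
        ring
      obtain ⟨b, hb⟩ := e3
      obtain ⟨a, ha⟩ := ell_dvd_sub (0 : K × K) q
      have hell : ell (0 : K × K) = X 2 := by simp [ell, lin]
      rw [hell] at ha
      exact ⟨a, b, by linear_combination ha + hb⟩
    · rintro ⟨a, b, rfl⟩
      simp only [map_add, map_mul, rho_X2, rho_NA]
      refine ⟨dvd_add (dvd_mul_of_dvd_right ?_ _) (dvd_mul_of_dvd_right ?_ _),
        dvd_add (dvd_mul_of_dvd_right ?_ _) (dvd_mul_of_dvd_right ?_ _),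
        dvd_add (dvd_mul_of_dvd_right ?_ _) (dvd_mul_of_dvd_right ?_ _)⟩
      · refine ⟨C 4, ?_⟩
        simp only [lin_mk, map_neg, map_zero, map_one]
        ring
      · refine ⟨- (X 1 * (X 0 + X 1)), ?_⟩
        simp only [lin_mk, map_neg, map_zero, map_one, NA]
        ring
      · refine ⟨C 3, ?_⟩
        simp only [lin_mk, map_neg, map_zero, map_one]
        ring
      · refine ⟨- (X 0 * (X 0 + X 1)), ?_⟩
        simp only [lin_mk, map_neg, map_zero, map_one, NA]
        ring
      · refine ⟨-1, ?_⟩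
        simp only [lin_mk, map_neg, map_one]
        ring
      · refine ⟨- (X 0 * X 1), ?_⟩
        simp only [lin_mk, map_neg, map_one, NA]
        ring
  · intro a b hab
    have h1 : (X 2 : MvPolynomial (Fin 3) K) ∣ b * NA K :=
      ⟨-a, by linear_combination hab⟩
    obtain ⟨k, hk⟩ := (X2_prime.dvd_or_dvd h1).resolve_right (NA_ne h2)
    refine ⟨-k, ?_, by rw [hk]; ring⟩
    have : X 2 * a = X 2 * (-k * NA K) := by
      rw [hk] at hab
      linear_combination hab
    exact mul_left_cancel₀ (X_ne_zero _) this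

/-- the first arrangement is strictly plus-one generated -/
theorem pogA (hg : Good (toK K czA)) (h2 : (2 : K) ≠ 0) :
    IsStrictlyPlusOneGenerated (vecs (toK K czA)) ![1, 6, 12] 14 := by
  obtain ⟨p0, p1, h⟩ := exists_sys (m := 12) (by norm_num) (vv (toK K czA))
  obtain ⟨w1, w2, e', hw1, hw2, he, hrel, lE, lT, l1, l2, hspan, hall⟩ :=
    ci_structure (toK K czA) (vv (toK K czA)) (cK_inj hg) (genPos hg) (vv_ne hg) (vv_det hg) h
      (ciA hg h2) (N := 9) (by norm_num)
  refine ⟨![0, 0, -1], ?_, ![mk vE, mk (vT (toK K czA)), mk (vD p0 p1 (X 2) w1)],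
    mk (vD p0 p1 (NA K) w2), ![0, -e', NA K], ?_, ?_, ?_, ?_, ?_, ?_⟩
  · intro h0
    have := congrFun h0 2
    simp at this
  · intro i
    fin_cases i
    · intro j
      change (mk vE (X j)).IsHomogeneous 1
      rw [mk_X]
      fin_cases j <;> exact isHomogeneous_X _ _
    · intro j
      change (mk (vT (toK K czA)) (X j)).IsHomogeneous 6
      rw [mk_X]
      fin_cases j
      · exact isHomogeneous_zero _ _ _
      · exact isHomogeneous_zero _ _ _
      · exact hh_homog _
    · intro j
      change (mk (vD p0 p1 (X 2) w1) (X j)).IsHomogeneous 12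
      rw [mk_X]
      fin_cases j
      · exact (isHomogeneous_X _ _).mul h.h0
      · exact (isHomogeneous_X _ _).mul h.h1
      · exact hw1
  · intro j
    rw [mk_X]
    fin_cases j
    · exact NA_homog.mul h.h0
    · exact NA_homog.mul h.h1
    · exact hw2
  · intro i
    fin_cases i
    · left; rfl
    · right
      exact ⟨9, by norm_num, by simp, he.neg⟩
    · right
      exact ⟨3, by norm_num, by simp, NA_homog⟩
  · rintro ⟨h0, _⟩
    have := congrFun h0 2
    simp at this
  · apply le_antisymm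
    · rw [Submodule.span_le, Set.insert_subset_iff]
      refine ⟨(mk_mem_iff _ _).2 l2, ?_⟩
      rintro _ ⟨i, rfl⟩
      fin_cases i
      · exact (mk_mem_iff _ _).2 lE
      · exact (mk_mem_iff _ _).2 lT
      · exact (mk_mem_iff _ _).2 l1
    · intro θ hθ
      rw [mem_logDer_iff] at hθ
      obtain ⟨g0, g1, g2, g3, hh⟩ := hspan _ hθ
      rw [eq_mk θ, hh, mk_add, mk_add, mk_add, mk_smul, mk_smul, mk_smul, mk_smul]
      have hsub : ∀ i, (![mk vE, mk (vT (toK K czA)), mk (vD p0 p1 (X 2) w1)] :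
          Fin 3 → Der3 K) i ∈ Submodule.span (MvPolynomial (Fin 3) K)
          (insert (mk (vD p0 p1 (NA K) w2)) (Set.range ![mk vE, mk (vT (toK K czA)),
            mk (vD p0 p1 (X 2) w1)])) := fun i =>
        Submodule.subset_span (Set.mem_insert_of_mem _ ⟨i, rfl⟩)
      refine Submodule.add_mem _ (Submodule.add_mem _ (Submodule.add_mem _ ?_ ?_) ?_) ?_
      · exact Submodule.smul_mem _ _ (hsub 0)
      · exact Submodule.smul_mem _ _ (hsub 1)
      · exact Submodule.smul_mem _ _ (hsub 2)
      · exact Submodule.smul_mem _ _ (Submodule.subset_span (Set.mem_insert _ _))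
  · intro g k
    have e1 : (∑ i, g i • (![mk vE, mk (vT (toK K czA)), mk (vD p0 p1 (X 2) w1)] :
        Fin 3 → Der3 K) i) + k • mk (vD p0 p1 (NA K) w2) =
        mk (g 0 • vE + g 1 • vT (toK K czA) + g 2 • vD p0 p1 (X 2) w1 +
          k • vD p0 p1 (NA K) w2) := by
      rw [Fin.sum_univ_three, mk_add, mk_add, mk_add, mk_smul, mk_smul, mk_smul, mk_smul]
      rfl
    have e2 : ∀ η : Fin 3 → MvPolynomial (Fin 3) K, mk η = 0 ↔ η = 0 := fun η =>
      ⟨fun h0 => mk_inj (h0.trans mk_zero.symm), fun h0 => by rw [h0, mk_zero]⟩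
    rw [e1, e2, hall]
    constructor
    · rintro ⟨c, c0, c1, c2, c3⟩
      refine ⟨c, fun i => ?_, ?_⟩
      · fin_cases i
        · change g 0 = c * 0
          rw [c0, mul_zero]
        · exact c1
        · exact c2
      · rw [c3]
        simp [linearForm, Fin.sum_univ_three]
    · rintro ⟨c, hc, hk⟩
      refine ⟨c, ?_, hc 1, hc 2, ?_⟩
      · have := hc 0
        simpa using this
      · rw [hk]
        simp [linearForm, Fin.sum_univ_three]

end A

end Pool.Agent.Q39.POG
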