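import Pool.Agent.Q39.POG.Main

set_option autoImplicit false

/-!
# The second arrangement is not plus-one generated
-/

namespace Pool.Agent.Q39.POG

open MvPolynomial

variable {K : Type} [Field K]

lemma b01 : toK K czB 0 - toK K czB 1 = (-1, 0) := by
  ext <;> simp [toK, czB]; ring
lemma b23 : toK K czB 2 - toK K czB 3 = (0, -1) := by
  ext <;> simp [toK, czB]; ring
lemma b45 : toK K czB 4 - toK K czB 5 = (-2, -1) := by
  ext <;> simp [toK, czB] <;> ring
lemma b0 : toK K czB 0 = (-4, 0) := by ext <;> simp [toK, czB]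
lemma b2 : toK K czB 2 = (0, -3) := by ext <;> simp [toK, czB]
lemma b4 : toK K czB 4 = (1, 1) := by ext <;> simp [toK, czB]

lemma adm_component {n m : ℕ} {c : Fin n → K × K} {v : Fin m → K × K}
    {q : MvPolynomial (Fin 3) K} (h : Adm c v q) (k : ℕ) : Adm c v (homogeneousComponent k q) := by
  intro i j hij hn
  rw [rho_component]
  exact dvd_component (lin_homog _) (h i j hij hn) k

lemma exists_lin_of_homog_one {F : MvPolynomial (Fin 3) K} (h : F.IsHomogeneous 1) :
    ∃ a b c : K, F = C a * X 0 + C b * X 1 + C c * X 2 := by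
  have h1 : F ∈ homogeneousSubmodule (Fin 3) K 1 := h
  rw [homogeneousSubmodule_one_eq_span_X, Submodule.mem_span_range_iff_exists_fun] at h1
  obtain ⟨c, hc⟩ := h1
  refine ⟨c 0, c 1, c 2, ?_⟩
  rw [← hc, Fin.sum_univ_three]
  simp only [smul_eq_C_mul]

lemma lowB (hg : Good (toK K czB)) (q : MvPolynomial (Fin 3) K)
    (hq : Adm (toK K czB) (vv (toK K czB)) q) : ∀ j < 2, homogeneousComponent j q = 0 := by
  intro j hj
  have h1 := adm_component hq j
  rw [adm_iff3 hg, b01, b23, b45, b0, b2, b4] at h1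
  obtain ⟨h0, h1, h2⟩ := h1
  have hj' : j = 0 ∨ j = 1 := by omega
  rcases hj' with rfl | rfl
  · rw [homogeneousComponent_zero, rho_C] at h0
    rw [homogeneousComponent_zero]
    by_contra hne
    have hu : IsUnit (C (coeff 0 q) : MvPolynomial (Fin 3) K) := by
      refine IsUnit.map C (IsUnit.mk0 _ ?_)
      rintro e
      exact hne (by rw [e, map_zero])
    refine (lin_prime (p := ((-1 : K), (0 : K))) ?_).not_isUnit (isUnit_of_dvd_unit h0 hu)
    intro e
    have := congrArg Prod.fst e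
    simp at this
  · obtain ⟨a, b, d, hF⟩ := exists_lin_of_homog_one (homogeneousComponent_isHomogeneous 1 q)
    rw [hF] at h0 h1 h2 ⊢
    have f : ∀ p : K × K, rho p (C a * X 0 + C b * X 1 + C d * X 2) =
        lin (a + d * p.1, b + d * p.2) := by
      intro p
      simp only [map_add, map_mul, rho_C, rho_X0, rho_X1, rho_X2, lin]
      ring
    rw [f] at h0 h1 h2
    have g0 := det2_eq_zero_of_dvd h0
    have g1 := det2_eq_zero_of_dvd h1
    have g2 := det2_eq_zero_of_dvd h2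
    simp [det2] at g0 g1 g2
    have hb : b = 0 := by linear_combination g0
    have ha : a = 0 := by linear_combination g1
    have hd : d = 0 := by linear_combination -g2 + ha - 2 * hb
    rw [ha, hb, hd]
    simp

/-- three quadrics through the three residual points -/
noncomputable def qB (K : Type) [Field K] : Fin 3 → MvPolynomial (Fin 3) K :=
  ![X 0 * X 1 + 2 * X 2 ^ 2, X 0 * X 2 + X 2 ^ 2, X 1 * X 2 - 2 * X 2 ^ 2]

/-- their leading monomials -/
noncomputable def mB : Fin 3 → (Fin 3 →₀ ℕ) :=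
  ![Finsupp.single 0 1 + Finsupp.single 1 1, Finsupp.single 0 1 + Finsupp.single 2 1,
    Finsupp.single 1 1 + Finsupp.single 2 1]

lemma qB_homog (i : Fin 3) : (qB K i).IsHomogeneous 2 := by
  have h2 : (2 : MvPolynomial (Fin 3) K) = C 2 := (map_ofNat C 2).symm
  have hX : ∀ i j : Fin 3, (X i * X j : MvPolynomial (Fin 3) K).IsHomogeneous 2 := fun i j =>
    (isHomogeneous_X _ _).mul (isHomogeneous_X _ _)
  have hX2 : (X 2 ^ 2 : MvPolynomial (Fin 3) K).IsHomogeneous 2 := by
    rw [sq]; exact hX 2 2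
  have hX3 : (2 * X 2 ^ 2 : MvPolynomial (Fin 3) K).IsHomogeneous 2 := by
    rw [h2]; exact hX2.C_mul _
  fin_cases i
  · exact (hX 0 1).add hX3
  · exact (hX 0 2).add hX2
  · exact (hX 1 2).sub hX3

lemma qB_adm (hg : Good (toK K czB)) (i : Fin 3) :
    Adm (toK K czB) (vv (toK K czB)) (qB K i) := by
  rw [adm_iff3 hg, b01, b23, b45, b0, b2, b4]
  have h2 : (2 : MvPolynomial (Fin 3) K) = C 2 := (map_ofNat C 2).symm
  fin_cases i
  · change _ ∣ rho _ (X 0 * X 1 + 2 * X 2 ^ 2) ∧ _ ∣ rho _ (X 0 * X 1 + 2 * X 2 ^ 2) ∧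
      _ ∣ rho _ (X 0 * X 1 + 2 * X 2 ^ 2)
    simp only [map_add, map_mul, map_pow, rho_X0, rho_X1, rho_X2, map_ofNat]
    refine ⟨⟨-X 1 - 2 * C 4 ^ 2 * X 0, ?_⟩, ⟨-X 0 - 2 * C 3 ^ 2 * X 1, ?_⟩,
      ⟨-(X 0 + 2 * X 1), ?_⟩⟩
    · simp only [lin_mk, map_neg, map_zero, map_one]
      ring
    · simp only [lin_mk, map_neg, map_zero, map_one]
      ring
    · simp only [lin_mk, map_neg, map_one, map_ofNat]
      ring
  · change _ ∣ rho _ (X 0 * X 2 + X 2 ^ 2) ∧ _ ∣ rho _ (X 0 * X 2 + X 2 ^ 2) ∧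
      _ ∣ rho _ (X 0 * X 2 + X 2 ^ 2)
    simp only [map_add, map_mul, map_pow, rho_X0, rho_X2]
    refine ⟨⟨C 4 * X 0 - C 4 ^ 2 * X 0, ?_⟩, ⟨C 3 * X 0 - C 3 ^ 2 * X 1, ?_⟩,
      ⟨-(X 0 + X 1), ?_⟩⟩
    · simp only [lin_mk, map_neg, map_zero, map_one]
      ring
    · simp only [lin_mk, map_neg, map_zero, map_one]
      ring
    · simp only [lin_mk, map_neg, map_one, map_ofNat]
      ring
  · change _ ∣ rho _ (X 1 * X 2 - 2 * X 2 ^ 2) ∧ _ ∣ rho _ (X 1 * X 2 - 2 * X 2 ^ 2) ∧
      _ ∣ rho _ (X 1 * X 2 - 2 * X 2 ^ 2)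
    simp only [map_sub, map_mul, map_pow, rho_X1, rho_X2, map_ofNat]
    refine ⟨⟨C 4 * X 1 + 2 * C 4 ^ 2 * X 0, ?_⟩, ⟨C 3 * X 1 + 2 * C 3 ^ 2 * X 1, ?_⟩,
      ⟨(X 0 + X 1), ?_⟩⟩
    · simp only [lin_mk, map_neg, map_zero, map_one]
      ring
    · simp only [lin_mk, map_neg, map_zero, map_one]
      ring
    · simp only [lin_mk, map_neg, map_one, map_ofNat]
      ring

lemma coeff_XX (i j : Fin 3) (m : Fin 3 →₀ ℕ) :
    coeff m (X i * X j : MvPolynomial (Fin 3) K) =
      if Finsupp.single i 1 + Finsupp.single j 1 = m then 1 else 0 := by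
  have : (X i * X j : MvPolynomial (Fin 3) K) =
      monomial (Finsupp.single i 1 + Finsupp.single j 1) 1 := by
    rw [X, X, monomial_mul, one_mul]
  rw [this, coeff_monomial]

lemma mB_degree (i : Fin 3) : (mB i).degree = 2 := by
  fin_cases i <;> simp [mB, map_add]

lemma ne_of_val {a b : Fin 3 →₀ ℕ} (k : Fin 3) (h : a k ≠ b k) : a ≠ b := fun e => h (by rw [e])

lemma qB_coeff (i j : Fin 3) : coeff (mB j) (qB K i) = if i = j then 1 else 0 := by
  have h2 : (2 : MvPolynomial (Fin 3) K) = C 2 := (map_ofNat C 2).symm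
  have hq : ∀ i, qB K i = ![X 0 * X 1 + C 2 * (X 2 * X 2), X 0 * X 2 + X 2 * X 2,
      X 1 * X 2 - C 2 * (X 2 * X 2)] i := by
    intro i
    fin_cases i <;> simp [qB, sq, h2]
  have e : ∀ a b c d : Fin 3, (Finsupp.single a 1 + Finsupp.single b 1 : Fin 3 →₀ ℕ) =
      Finsupp.single c 1 + Finsupp.single d 1 ↔ (a = c ∧ b = d) ∨ (a = d ∧ b = c) := by
    intro a b c d
    constructor
    · intro h
      have h0 := DFunLike.congr_fun h 0
      have h1 := DFunLike.congr_fun h 1
      have h2 := DFunLike.congr_fun h 2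
      simp only [Finsupp.add_apply, Finsupp.single_apply] at h0 h1 h2
      revert h0 h1 h2
      clear h
      revert a b c d
      decide
    · rintro (⟨rfl, rfl⟩ | ⟨rfl, rfl⟩)
      · rfl
      · exact add_comm _ _
  rw [hq]
  fin_cases i <;> fin_cases j <;>
    simp [mB, coeff_XX, e, coeff_C_mul]

/-- the module of the second arrangement is not generated by four elements -/
theorem not_four (hg : Good (toK K czB)) (w : Fin 4 → Der3 K)
    (hw : Submodule.span (MvPolynomial (Fin 3) K) (Set.range w) = logDer (vecs (toK K czB))) :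
    False := by
  refine five_generators (toK K czB) (vv (toK K czB)) (cK_inj hg) (genPos hg) (vv_ne hg)
    (vv_det hg) (by norm_num) (by norm_num) (lowB hg) mB mB_degree (qB K) (qB_adm hg) qB_homog
    ?_ ?_ (fun i j => w i (X j)) ?_ ?_
  · intro i j hij
    rw [qB_coeff, if_neg hij]
  · intro i
    rw [qB_coeff, if_pos rfl]
    exact one_ne_zero
  · intro i
    rw [← mem_logDer_iff, ← hw]
    exact Submodule.subset_span ⟨i, rfl⟩
  · intro η hη
    rw [← mk_mem_iff, ← hw, Submodule.mem_span_range_iff_exists_fun] at hη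
    obtain ⟨g, hgg⟩ := hη
    refine ⟨g, ?_⟩
    funext j
    have := congrArg (fun d : Der3 K => d (X j)) hgg
    simp only [mk_X] at this
    rw [← this]
    simp [Fin.sum_univ_four]

/-- the second arrangement is not plus-one generated -/
theorem not_pogB (hg : Good (toK K czB)) (e : Fin 3 → ℕ) (d : ℕ) :
    ¬ IsPlusOneGenerated (vecs (toK K czB)) e d := by
  rintro ⟨a, θ, φ, f, _, _, _, _, hspan, _⟩
  refine not_four hg (Fin.cons φ θ) ?_
  rw [Fin.range_cons]
  exact hspan

end Pool.Agent.Q39.POG
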