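import Pool.Agent.Q39.POG.CI
import Pool.Agent.Q39.POG.Five

set_option autoImplicit false

/-!
# Six lines and twelve lines through a point
-/

namespace Pool.Agent.Q39.POG

open MvPolynomial

/-- the pairs of lines whose intersection point is joined to the centre of the pencil -/
def PP : Fin 12 → Fin 6 × Fin 6 :=
  ![(0, 2), (0, 3), (0, 4), (0, 5), (1, 2), (1, 3), (1, 4), (1, 5), (2, 4), (2, 5), (3, 4), (3, 5)]

variable {K : Type} [Field K]

/-- all fifteen directions are different -/
def Good (c : Fin 6 → K × K) : Prop :=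
  ∀ i j k l : Fin 6, i ≠ j → k ≠ l → ¬ ((i = k ∧ j = l) ∨ (i = l ∧ j = k)) →
    det2 (c i - c j) (c k - c l) ≠ 0

/-- the directions of the lines of the pencil -/
def vv (c : Fin 6 → K × K) : Fin 12 → K × K := fun k => c (PP k).1 - c (PP k).2

lemma third : ∀ i j : Fin 6, ∃ k : Fin 6, k ≠ i ∧ k ≠ j := by decide

lemma cK_inj {c : Fin 6 → K × K} (h : Good c) : Function.Injective c := by
  intro i j hij
  by_contra hne
  obtain ⟨k, hk⟩ := third i j
  refine h i j i k hne hk.1.symm ?_ ?_
  · rintro (⟨_, h2⟩ | ⟨h1, h2⟩)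
    · exact hk.2 h2.symm
    · exact hne h2.symm
  · rw [hij]; simp [det2]

lemma genPos {c : Fin 6 → K × K} (h : Good c) : GenPos c := by
  intro k i j hki hkj hij
  refine h _ _ _ _ hki hkj ?_
  rintro (⟨_, h2⟩ | ⟨h1, h2⟩)
  · exact hij h2
  · exact hkj h1

lemma PP_ne : ∀ k, (PP k).1 ≠ (PP k).2 := by decide

lemma PP_inj : ∀ k l, k ≠ l → ¬ (((PP k).1 = (PP l).1 ∧ (PP k).2 = (PP l).2) ∨
    ((PP k).1 = (PP l).2 ∧ (PP k).2 = (PP l).1)) := by decide

lemma vv_ne {c : Fin 6 → K × K} (h : Good c) (k : Fin 12) : vv c k ≠ 0 :=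
  sub_ne_zero.2 fun e => PP_ne k (cK_inj h e)

lemma vv_det {c : Fin 6 → K × K} (h : Good c) (k l : Fin 12) (hkl : k ≠ l) :
    det2 (vv c k) (vv c l) ≠ 0 := h _ _ _ _ (PP_ne k) (PP_ne l) (PP_inj k l hkl)

lemma not_dvd_gg {c : Fin 6 → K × K} (h : Good c) {i j : Fin 6} (hij : i ≠ j)
    (hn : ∀ k, ¬ ((i = (PP k).1 ∧ j = (PP k).2) ∨ (i = (PP k).2 ∧ j = (PP k).1))) :
    ¬ lin (c i - c j) ∣ gg (vv c) := by
  intro hd
  have hp : Prime (lin (c i - c j)) :=
    lin_prime (sub_ne_zero.2 fun e => hij (cK_inj h e))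
  obtain ⟨k, _, hk⟩ := (hp.dvd_finsetProd_iff _).1 hd
  exact h _ _ _ _ hij (PP_ne k) (hn k) (det2_eq_zero_of_dvd hk)

lemma lin_neg_dvd {p q : K × K} {F : MvPolynomial (Fin 3) K} :
    lin (p - q) ∣ F ↔ lin (q - p) ∣ F := by
  have : lin (p - q) = - lin (q - p) := by rw [lin_sub, lin_sub]; ring
  rw [this, neg_dvd]

lemma dvd_gg (c : Fin 6 → K × K) {i j : Fin 6} {k : Fin 12}
    (h : ((i = (PP k).1 ∧ j = (PP k).2) ∨ (i = (PP k).2 ∧ j = (PP k).1))) :
    lin (c i - c j) ∣ gg (vv c) := by
  rcases h with ⟨rfl, rfl⟩ | ⟨rfl, rfl⟩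
  · exact Finset.dvd_prod_of_mem (fun k => lin (vv c k)) (Finset.mem_univ k)
  · rw [lin_neg_dvd]
    exact Finset.dvd_prod_of_mem (fun k => lin (vv c k)) (Finset.mem_univ k)

lemma pairs : ∀ i j : Fin 6, i ≠ j →
    (∃ k, ((i = (PP k).1 ∧ j = (PP k).2) ∨ (i = (PP k).2 ∧ j = (PP k).1))) ∨
    (i = 0 ∧ j = 1) ∨ (i = 1 ∧ j = 0) ∨ (i = 2 ∧ j = 3) ∨ (i = 3 ∧ j = 2) ∨
    (i = 4 ∧ j = 5) ∨ (i = 5 ∧ j = 4) := by decide

lemma flip_dvd (c : Fin 6 → K × K) {i j : Fin 6} {q : MvPolynomial (Fin 3) K}
    (h : lin (c i - c j) ∣ rho (c i) q) : lin (c j - c i) ∣ rho (c j) q := by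
  rw [lin_neg_dvd]
  have h1 := lin_dvd_rho_sub (c i) (c j) q
  have : rho (c j) q = rho (c i) q - (rho (c i) q - rho (c j) q) := by ring
  rw [this]
  exact dvd_sub h h1

lemma adm_iff3 {c : Fin 6 → K × K} (h : Good c) (q : MvPolynomial (Fin 3) K) :
    Adm c (vv c) q ↔ lin (c 0 - c 1) ∣ rho (c 0) q ∧
      lin (c 2 - c 3) ∣ rho (c 2) q ∧
      lin (c 4 - c 5) ∣ rho (c 4) q := by
  constructor
  · intro hq
    exact ⟨hq 0 1 (by decide) (not_dvd_gg h (by decide) (by decide)),
      hq 2 3 (by decide) (not_dvd_gg h (by decide) (by decide)),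
      hq 4 5 (by decide) (not_dvd_gg h (by decide) (by decide))⟩
  · rintro ⟨h1, h2, h3⟩ i j hij hn
    rcases pairs i j hij with ⟨k, hk⟩ | ⟨rfl, rfl⟩ | ⟨rfl, rfl⟩ | ⟨rfl, rfl⟩ | ⟨rfl, rfl⟩ |
      ⟨rfl, rfl⟩ | ⟨rfl, rfl⟩
    · exact absurd (dvd_gg c hk) hn
    · exact h1
    · exact flip_dvd _ h1
    · exact h2
    · exact flip_dvd _ h2
    · exact h3
    · exact flip_dvd _ h3

/-! ### the family of coefficient vectors and its dependencies -/

/-- coefficient vectors of the eighteen lines: twelve through `[0:0:1]` and six others -/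
def vecs (c : Fin 6 → K × K) : Fin (12 + 6) → Fin 3 → K :=
  Fin.append (fun k => ![(vv c k).1, (vv c k).2, 0]) (fun i => ![-(c i).1, -(c i).2, 1])

lemma det3_eq (a b c : Fin 3 → K) (M : Fin 3 → Fin 3 → K) (h0 : M 0 = a) (h1 : M 1 = b)
    (h2 : M 2 = c) : Matrix.det (Matrix.of M) =
      a 0 * (b 1 * c 2 - b 2 * c 1) - a 1 * (b 0 * c 2 - b 2 * c 0) +
      a 2 * (b 0 * c 1 - b 1 * c 0) := by
  rw [Matrix.det_fin_three]
  simp only [Matrix.of_apply, h0, h1, h2]
  ring

lemma minors {c c' : Fin 6 → K × K} (h' : Good c') (e : Fin 3 ↪o Fin (12 + 6))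
    (hd : Matrix.det (Matrix.of (fun i => vecs c (e i))) ≠ 0) :
    Matrix.det (Matrix.of (fun i => vecs c' (e i))) ≠ 0 := by
  have h01 : e 0 < e 1 := e.strictMono (by decide)
  have h12 : e 1 < e 2 := e.strictMono (by decide)
  rw [det3_eq _ _ _ (fun i => vecs c (e i)) rfl rfl rfl] at hd
  rw [det3_eq _ _ _ (fun i => vecs c' (e i)) rfl rfl rfl]
  generalize e 0 = x at *
  generalize e 1 = y at *
  generalize e 2 = z at *
  induction x using Fin.addCases with
  | left x =>
    induction y using Fin.addCases with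
    | left y =>
      induction z using Fin.addCases with
      | left z =>
        exfalso
        apply hd
        simp [vecs]
      | right z =>
        have hxy : x ≠ y := by rintro rfl; exact lt_irrefl _ h01
        have := vv_det h' x y hxy
        intro h0
        apply this
        simp [vecs] at h0
        simp only [det2]
        linear_combination h0
    | right y =>
      induction z using Fin.addCases with
      | left z =>
        exfalso
        rw [Fin.lt_def] at h12
        simp at h12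
        omega
      | right z =>
        have hyz : y ≠ z := by rintro rfl; exact lt_irrefl _ h12
        by_cases hk : ((y = (PP x).1 ∧ z = (PP x).2) ∨ (y = (PP x).2 ∧ z = (PP x).1))
        · exfalso
          apply hd
          rcases hk with ⟨rfl, rfl⟩ | ⟨rfl, rfl⟩
          · simp [vecs, vv]; ring
          · simp [vecs, vv]; ring
        · have := h' y z _ _ hyz (PP_ne x) hk
          intro h0
          apply this
          simp [vecs, vv] at h0
          simp only [det2, Prod.fst_sub, Prod.snd_sub]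
          linear_combination h0
  | right x =>
    induction y using Fin.addCases with
    | left y =>
      exfalso
      rw [Fin.lt_def] at h01
      simp at h01
      omega
    | right y =>
      induction z using Fin.addCases with
      | left z =>
        exfalso
        rw [Fin.lt_def] at h12
        simp at h12
        omega
      | right z =>
        have hxy : x ≠ y := by rintro rfl; exact lt_irrefl _ h01
        have hyz : y ≠ z := by rintro rfl; exact lt_irrefl _ h12
        have hxz : x ≠ z := by rintro rfl; exact absurd (h01.trans h12) (lt_irrefl _)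
        have := genPos h' x y z hxy hxz hyz
        intro h0
        apply this
        simp [vecs] at h0
        simp only [det2, Prod.fst_sub, Prod.snd_sub]
        linear_combination h0

end Pool.Agent.Q39.POG
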