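import Pool.Agent.Q39.POG.Basic

set_option autoImplicit false

/-!
# Logarithmic derivations of lines in pencil position

`c i` gives the line `ell (c i) : z = a_i x + b_i y`, and `v k` gives the line
`lin (v k) : a x + b y = 0` through the point `[0:0:1]`.
-/

namespace Pool.Agent.Q39.POG

open MvPolynomial

variable {K : Type} [Field K] {n m : ℕ}

/-- `θ` is tangent to all lines -/
def IsLog (c : Fin n → K × K) (v : Fin m → K × K) (θ : Fin 3 → MvPolynomial (Fin 3) K) : Prop :=
  (∀ i, ell (c i) ∣ θ 2 - C (c i).1 * θ 0 - C (c i).2 * θ 1) ∧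
  (∀ k, lin (v k) ∣ C (v k).1 * θ 0 + C (v k).2 * θ 1)

/-- the product of the lines of the pencil -/
noncomputable def gg (v : Fin m → K × K) : MvPolynomial (Fin 3) K := ∏ k, lin (v k)

/-- the product of the other lines -/
noncomputable def hh (c : Fin n → K × K) : MvPolynomial (Fin 3) K := ∏ i, ell (c i)

/-- `p0, p1` are polynomials in `x, y` with `x p1 - y p0 = g`. -/
structure Sys (v : Fin m → K × K) (p0 p1 : MvPolynomial (Fin 3) K) : Prop where
  eq : X 0 * p1 - X 1 * p0 = gg v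
  r0 : ∀ p : K × K, rho p p0 = p0
  r1 : ∀ p : K × K, rho p p1 = p1
  h0 : p0.IsHomogeneous (m - 1)
  h1 : p1.IsHomogeneous (m - 1)

lemma gg_ne_zero {v : Fin m → K × K} (hv : ∀ k, v k ≠ 0) : gg v ≠ 0 :=
  Finset.prod_ne_zero_iff.2 fun k _ => lin_ne_zero (hv k)

lemma hh_ne_zero (c : Fin n → K × K) : hh c ≠ 0 :=
  Finset.prod_ne_zero_iff.2 fun k _ => ell_ne_zero _

lemma gg_homog (v : Fin m → K × K) : (gg v).IsHomogeneous m := by
  have := IsHomogeneous.prod Finset.univ (fun k => lin (v k)) (fun _ => 1)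
    (fun k _ => lin_homog (v k))
  simpa [gg] using this

lemma hh_homog (c : Fin n → K × K) : (hh c).IsHomogeneous n := by
  have := IsHomogeneous.prod Finset.univ (fun k => ell (c k)) (fun _ => 1)
    (fun k _ => ell_homog (c k))
  simpa [hh] using this

lemma exists_sys (hm : 0 < m) (v : Fin m → K × K) : ∃ p0 p1, Sys v p0 p1 := by
  obtain ⟨m, rfl⟩ : ∃ m', m = m' + 1 := ⟨m - 1, by omega⟩
  refine ⟨- (C (v 0).2 * gg (fun k : Fin m => v k.succ)), C (v 0).1 * gg (fun k : Fin m => v k.succ),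
    ?_, ?_, ?_, ?_, ?_⟩
  · unfold gg
    rw [Fin.prod_univ_succ]
    simp only [lin]
    ring
  · intro p
    rw [map_neg, map_mul, rho_C]
    unfold gg
    rw [rho_prod_lin]
  · intro p
    rw [map_mul, rho_C]
    unfold gg
    rw [rho_prod_lin]
  · rw [Nat.add_sub_cancel]
    exact ((gg_homog _).C_mul _).neg
  · rw [Nat.add_sub_cancel]
    exact ((gg_homog _).C_mul _)

/-- `a p0 + b p1` -/
noncomputable def phi (p0 p1 : MvPolynomial (Fin 3) K) (p : K × K) : MvPolynomial (Fin 3) K :=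
  C p.1 * p0 + C p.2 * p1

lemma phi_sub (p0 p1 : MvPolynomial (Fin 3) K) (p q : K × K) :
    phi p0 p1 (p - q) = phi p0 p1 p - phi p0 p1 q := by
  simp only [phi, Prod.fst_sub, Prod.snd_sub, map_sub]
  ring

lemma lin_dvd_of_C_mul {w : K × K} (hw : w ≠ 0) {L F : MvPolynomial (Fin 3) K}
    (h1 : L ∣ C w.1 * F) (h2 : L ∣ C w.2 * F) : L ∣ F := by
  by_cases h : w.1 = 0
  · have h' : w.2 ≠ 0 := fun h' => hw (Prod.ext h h')
    have : F = C (w.2)⁻¹ * (C w.2 * F) := by
      rw [← mul_assoc, ← map_mul, inv_mul_cancel₀ h', map_one, one_mul]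
    rw [this]
    exact dvd_mul_of_dvd_right h2 _
  · have : F = C (w.1)⁻¹ * (C w.1 * F) := by
      rw [← mul_assoc, ← map_mul, inv_mul_cancel₀ h, map_one, one_mul]
    rw [this]
    exact dvd_mul_of_dvd_right h1 _

section

variable {v : Fin m → K × K} {p0 p1 : MvPolynomial (Fin 3) K}

lemma not_dvd_X {w : K × K} (hw : w ≠ 0) : ¬ (lin w ∣ X 0 ∧ lin w ∣ (X 1 : MvPolynomial (Fin 3) K)) := by
  rintro ⟨h1, h2⟩
  have e1 : lin w ∣ lin ((1 : K), (0 : K)) := by simpa [lin] using h1
  have e2 : lin w ∣ lin ((0 : K), (1 : K)) := by simpa [lin] using h2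
  have f1 := det2_eq_zero_of_dvd e1
  have f2 := det2_eq_zero_of_dvd e2
  simp [det2] at f1 f2
  exact hw (Prod.ext f2 f1)

/-- a line `w` of the pencil divides `phi w` if and only if it divides `g` -/
lemma dvd_phi_iff (h : Sys v p0 p1) {w : K × K} (hw : w ≠ 0) :
    lin w ∣ phi p0 p1 w ↔ lin w ∣ gg v := by
  have i1 : C w.2 * gg v = X 0 * phi p0 p1 w - p0 * lin w := by
    rw [← h.eq, phi, lin]; ring
  have i2 : C w.1 * gg v = p1 * lin w - X 1 * phi p0 p1 w := by
    rw [← h.eq, phi, lin]; ring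
  constructor
  · intro hd
    apply lin_dvd_of_C_mul hw
    · rw [i2]
      exact dvd_sub (dvd_mul_left _ _) (dvd_mul_of_dvd_right hd _)
    · rw [i1]
      exact dvd_sub (dvd_mul_of_dvd_right hd _) (dvd_mul_left _ _)
  · intro hd
    by_contra hn
    have hp := lin_prime hw
    have j1 : lin w ∣ X 0 * phi p0 p1 w := by
      have : X 0 * phi p0 p1 w = C w.2 * gg v + p0 * lin w := by rw [i1]; ring
      rw [this]
      exact dvd_add (dvd_mul_of_dvd_right hd _) (dvd_mul_left _ _)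
    have j2 : lin w ∣ X 1 * phi p0 p1 w := by
      have : X 1 * phi p0 p1 w = p1 * lin w - C w.1 * gg v := by rw [i2]; ring
      rw [this]
      exact dvd_sub (dvd_mul_left _ _) (dvd_mul_of_dvd_right hd _)
    exact not_dvd_X hw ⟨(hp.dvd_or_dvd j1).resolve_right hn, (hp.dvd_or_dvd j2).resolve_right hn⟩

lemma X0_prime : Prime (X 0 : MvPolynomial (Fin 3) K) := by
  have : (X 0 : MvPolynomial (Fin 3) K) = lin ((1 : K), (0 : K)) := by simp [lin]
  rw [this]
  exact lin_prime (by intro h; exact one_ne_zero (congrArg Prod.fst h))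

lemma X0_not_dvd_X1 : ¬ (X 0 : MvPolynomial (Fin 3) K) ∣ X 1 := by
  intro h
  have h1 : lin ((1 : K), (0 : K)) ∣ lin ((0 : K), (1 : K)) := by simpa [lin] using h
  have := det2_eq_zero_of_dvd h1
  simp [det2] at this

/-- **Structure of the logarithmic vector fields.** -/
theorem isLog_iff (c : Fin n → K × K) (hv : ∀ k, v k ≠ 0)
    (hv2 : ∀ k l, k ≠ l → det2 (v k) (v l) ≠ 0) (h : Sys v p0 p1)
    (θ : Fin 3 → MvPolynomial (Fin 3) K) :
    IsLog c v θ ↔ ∃ e q w : MvPolynomial (Fin 3) K, θ 0 = e * X 0 + q * p0 ∧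
      θ 1 = e * X 1 + q * p1 ∧ θ 2 = e * X 2 + w ∧
      ∀ i, rho (c i) w = rho (c i) (q * phi p0 p1 (c i)) := by
  constructor
  · rintro ⟨h1, h2⟩
    have hg : gg v ∣ X 0 * θ 1 - X 1 * θ 0 := by
      apply Finset.prod_dvd_of_isRelPrime
      · intro k _ l _ hkl
        exact lin_relPrime (hv2 k l hkl)
      · intro k _
        apply lin_dvd_of_C_mul (hv k)
        · have : C (v k).1 * (X 0 * θ 1 - X 1 * θ 0) =
              θ 1 * lin (v k) - X 1 * (C (v k).1 * θ 0 + C (v k).2 * θ 1) := by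
            rw [lin]; ring
          rw [this]
          exact dvd_sub (dvd_mul_left _ _) (dvd_mul_of_dvd_right (h2 k) _)
        · have : C (v k).2 * (X 0 * θ 1 - X 1 * θ 0) =
              X 0 * (C (v k).1 * θ 0 + C (v k).2 * θ 1) - θ 0 * lin (v k) := by
            rw [lin]; ring
          rw [this]
          exact dvd_sub (dvd_mul_of_dvd_right (h2 k) _) (dvd_mul_left _ _)
    obtain ⟨q, hq⟩ := hg
    rw [← h.eq] at hq
    have h3 : X 0 * (θ 1 - q * p1) = X 1 * (θ 0 - q * p0) := by linear_combination hq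
    have h4 : (X 0 : MvPolynomial (Fin 3) K) ∣ θ 0 - q * p0 := by
      have : (X 0 : MvPolynomial (Fin 3) K) ∣ X 1 * (θ 0 - q * p0) := ⟨_, h3.symm⟩
      exact (X0_prime.dvd_or_dvd this).resolve_left X0_not_dvd_X1
    obtain ⟨e, he⟩ := h4
    have h5 : θ 1 - q * p1 = X 1 * e := by
      rw [he] at h3
      apply mul_left_cancel₀ (X_ne_zero (0 : Fin 3) : (X 0 : MvPolynomial (Fin 3) K) ≠ 0)
      rw [h3]; ring
    refine ⟨e, q, θ 2 - e * X 2, by linear_combination he, by linear_combination h5, by ring, ?_⟩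
    intro i
    have h6 := h1 i
    have h7 : θ 2 - C (c i).1 * θ 0 - C (c i).2 * θ 1 =
        e * ell (c i) + ((θ 2 - e * X 2) - q * phi p0 p1 (c i)) := by
      rw [ell, lin, phi]
      linear_combination (- C (c i).1) * he - C (c i).2 * h5
    rw [h7] at h6
    have h8 := (ell_dvd_iff _ _).1 ((dvd_add_right (dvd_mul_left (ell (c i)) e)).1 h6)
    rw [map_sub, sub_eq_zero] at h8
    exact h8
  · rintro ⟨e, q, w, e0, e1, e2, hw⟩
    refine ⟨fun i => ?_, fun k => ?_⟩
    · have h7 : θ 2 - C (c i).1 * θ 0 - C (c i).2 * θ 1 =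
          e * ell (c i) + (w - q * phi p0 p1 (c i)) := by
        rw [ell, lin, phi, e0, e1, e2]
        ring
      rw [h7]
      refine dvd_add (dvd_mul_left _ _) ((ell_dvd_iff _ _).2 ?_)
      rw [map_sub, hw i, sub_self]
    · have h8 : C (v k).1 * θ 0 + C (v k).2 * θ 1 = e * lin (v k) + q * phi p0 p1 (v k) := by
        rw [e0, e1, lin, phi]; ring
      rw [h8]
      refine dvd_add (dvd_mul_left _ _) (dvd_mul_of_dvd_right ?_ _)
      rw [dvd_phi_iff h (hv k)]
      exact Finset.dvd_prod_of_mem _ (Finset.mem_univ k)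

/-- the condition on `q`: it vanishes at the intersection points of the lines `ell (c i)` which do
not lie on the lines of the pencil -/
def Adm (c : Fin n → K × K) (v : Fin m → K × K) (q : MvPolynomial (Fin 3) K) : Prop :=
  ∀ i j, i ≠ j → ¬ lin (c i - c j) ∣ gg v → lin (c i - c j) ∣ rho (c i) q

/-- three of the `c i` are never collinear -/
def GenPos (c : Fin n → K × K) : Prop :=
  ∀ k i j, k ≠ i → k ≠ j → i ≠ j → det2 (c k - c i) (c k - c j) ≠ 0

lemma rho_phi (h : Sys v p0 p1) (p w : K × K) : rho p (phi p0 p1 w) = phi p0 p1 w := by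
  rw [phi, map_add, map_mul, map_mul, rho_C, rho_C, h.r0, h.r1]

theorem adm_of_solution (c : Fin n → K × K) (hc : Function.Injective c) (h : Sys v p0 p1)
    {q w : MvPolynomial (Fin 3) K}
    (hw : ∀ i, rho (c i) w = rho (c i) (q * phi p0 p1 (c i))) : Adm c v q := by
  intro i j hij hn
  have hne : c i - c j ≠ 0 := sub_ne_zero.2 fun h => hij (hc h)
  have h1 := lin_dvd_rho_sub (c i) (c j) w
  rw [hw i, hw j, map_mul, map_mul, rho_phi h, rho_phi h] at h1
  have h2 := lin_dvd_rho_sub (c i) (c j) q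
  have h3 : lin (c i - c j) ∣ rho (c i) q * phi p0 p1 (c i - c j) := by
    have : rho (c i) q * phi p0 p1 (c i - c j) =
        (rho (c i) q * phi p0 p1 (c i) - rho (c j) q * phi p0 p1 (c j)) -
        (rho (c i) q - rho (c j) q) * phi p0 p1 (c j) := by
      rw [phi_sub]; ring
    rw [this]
    exact dvd_sub h1 (dvd_mul_of_dvd_left h2 _)
  refine ((lin_prime hne).dvd_or_dvd h3).resolve_right fun h4 => hn ?_
  exact (dvd_phi_iff h hne).1 h4

theorem exists_solution (c : Fin n → K × K) (hc : Function.Injective c) (hg : GenPos c)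
    (h : Sys v p0 p1) {q : MvPolynomial (Fin 3) K} (hq : Adm c v q) :
    ∃ w, ∀ i, rho (c i) w = rho (c i) (q * phi p0 p1 (c i)) := by
  obtain ⟨F, hF⟩ := interp Finset.univ c (fun k _ i _ j _ => hg k i j)
    (fun i => q * phi p0 p1 (c i)) (fun i _ j _ hij => by
      have hne : c i - c j ≠ 0 := sub_ne_zero.2 fun h => hij (hc h)
      have : q * phi p0 p1 (c i) - q * phi p0 p1 (c j) = q * phi p0 p1 (c i - c j) := by
        rw [phi_sub]; ring
      rw [this, map_mul, rho_phi h]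
      by_cases hd : lin (c i - c j) ∣ gg v
      · exact dvd_mul_of_dvd_right ((dvd_phi_iff h hne).2 hd) _
      · exact dvd_mul_of_dvd_left (hq i j hij hd) _)
  exact ⟨F, fun i => hF i (Finset.mem_univ i)⟩

lemma phi_homog (h : Sys v p0 p1) (w : K × K) : (phi p0 p1 w).IsHomogeneous (m - 1) :=
  (h.h0.C_mul _).add (h.h1.C_mul _)

theorem exists_homog_solution (c : Fin n → K × K) (hc : Function.Injective c) (hg : GenPos c)
    (h : Sys v p0 p1) {q : MvPolynomial (Fin 3) K} (hq : Adm c v q) {d : ℕ}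
    (hd : q.IsHomogeneous d) :
    ∃ w, w.IsHomogeneous (d + (m - 1)) ∧
      ∀ i, rho (c i) w = rho (c i) (q * phi p0 p1 (c i)) := by
  obtain ⟨F, hF⟩ := exists_solution c hc hg h hq
  refine ⟨homogeneousComponent (d + (m - 1)) F, homogeneousComponent_isHomogeneous _ _, ?_⟩
  intro i
  exact component_solves Finset.univ c (fun i => q * phi p0 p1 (c i)) (d + (m - 1))
    (fun i _ => hd.mul (phi_homog h _)) (fun i _ => hF i) i (Finset.mem_univ i)

/-- uniqueness of the representation -/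
lemma rep_unique (hv : ∀ k, v k ≠ 0) (h : Sys v p0 p1) {e q : MvPolynomial (Fin 3) K}
    (h0 : e * X 0 + q * p0 = 0) (h1 : e * X 1 + q * p1 = 0) : e = 0 ∧ q = 0 := by
  have h2 : q * gg v = 0 := by
    rw [← h.eq]
    linear_combination X 0 * h1 - X 1 * h0
  have h3 : q = 0 := (mul_eq_zero.1 h2).resolve_right (gg_ne_zero hv)
  rw [h3, zero_mul, add_zero] at h0
  exact ⟨(mul_eq_zero.1 h0).resolve_right (X_ne_zero _), h3⟩

end

end Pool.Agent.Q39.POG
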